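import Pool.Agent.U670.WC.Wr
import Pool.Agent.U181.IP.FinC

set_option autoImplicit false
set_option linter.unusedSectionVars false

/-!
# Codes
-/

namespace Pool.Agent.U670.WC

open SemidirectProduct Pool.Agent.Q223.IS Pool.Agent.Q32.DP Pool.Agent.U181.IP
  Pool.Agent.U181.IP.FinT Pool.Agent.Q32.DP.PROD2

/-- the code of the factor `x` -/
def kx (L : List Pres) (x : ℕ) : Pres := L.getD x (0, [])

/-- the size of the blocks -/
def bs (L : List Pres) : ℕ := (L.map Prod.fst).sum

/-- new index of the generator `j` in the copy `x`, `n` the number of generators there -/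
def sg (n m T x j : ℕ) : ℕ := if j < n then x * m + j else T + j

/-- the code: `L` codes of the factors, `t` multiplication table, `s` action -/
def code (L : List Pres) (t s : ℕ × ℕ) : Pres :=
  (s.1 * bs L + t.1,
    (List.range s.1).flatMap (fun x => (kx L x).2.map fun w =>
      mp (sg (kx L x).1 (bs L) (s.1 * bs L + t.1) x) w) ++
    ((List.range s.1).flatMap (fun x => (List.range (bs L)).map fun j =>
      if j < (kx L x).1 then [] else [(x * bs L + j, true)]) ++
    ((List.range s.1).flatMap (fun x => (List.range s.1).flatMap fun y =>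
      (List.range (bs L)).flatMap fun i => (List.range (bs L)).map fun j =>
        if x = y then [] else cmw [(x * bs L + i, true)] [(y * bs L + j, true)]) ++
    ((K t).2.map (fun w => mp (fun i => s.1 * bs L + i) w) ++
    (List.range t.1).flatMap (fun q => (List.range s.1).flatMap fun x =>
      (List.range (bs L)).map fun j =>
        [(s.1 * bs L + q, true), (x * bs L + j, true), (s.1 * bs L + q, false),
          (ml s q x * bs L + j, false)])))))

theorem mem_code {L : List Pres} {t s : ℕ × ℕ} {w : Wd} : w ∈ (code L t s).2 ↔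
    (∃ x < s.1, ∃ u ∈ (kx L x).2, w = mp (sg (kx L x).1 (bs L) (s.1 * bs L + t.1) x) u) ∨
    (∃ x < s.1, ∃ j < bs L, w = if j < (kx L x).1 then [] else [(x * bs L + j, true)]) ∨
    (∃ x < s.1, ∃ y < s.1, ∃ i < bs L, ∃ j < bs L,
      w = if x = y then [] else cmw [(x * bs L + i, true)] [(y * bs L + j, true)]) ∨
    (∃ u ∈ (K t).2, w = mp (fun i => s.1 * bs L + i) u) ∨
    (∃ q < t.1, ∃ x < s.1, ∃ j < bs L, w =
      [(s.1 * bs L + q, true), (x * bs L + j, true), (s.1 * bs L + q, false),
          (ml s q x * bs L + j, false)]) := by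
  unfold code
  simp only [List.mem_append, List.mem_flatMap, List.mem_map, List.mem_range, eq_comm (a := w)]

/-- the parameters -/
abbrev Z : Type := List Pres × (ℕ × ℕ) × (ℕ × ℕ)

section

variable {α : Type} [Primcodable α] {z : α → Z}

theorem kx_pr {L : α → List Pres} {x : α → ℕ} (hL : Primrec L) (hx : Primrec x) :
    Primrec fun a => kx (L a) (x a) := (Primrec.list_getD (0, [])).comp hL hx

theorem bs_pr' : Primrec bs := by
  have h : Primrec fun L : List Pres => L.foldr (fun k n => k.1 + n) 0 := by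
    refine Primrec.list_foldr (f := fun L : List Pres => L) (g := fun _ : List Pres => (0 : ℕ))
      (h := fun (_ : List Pres) (y : Pres × ℕ) => y.1.1 + y.2) Primrec.id (Primrec.const 0) ?_
    exact Primrec.nat_add.comp (Primrec.fst.comp (Primrec.fst.comp Primrec.snd))
      (Primrec.snd.comp Primrec.snd)
  refine h.of_eq fun L => ?_
  induction L with
  | nil => rfl
  | cons k L ih =>
    show k.1 + _ = _
    rw [ih]
    show _ = ((k :: L).map Prod.fst).sum
    rw [List.map_cons, List.sum_cons]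
    rfl

theorem bs_pr (h : Primrec z) : Primrec fun a => bs (z a).1 := bs_pr'.comp (Primrec.fst.comp h)

theorem zL (h : Primrec z) : Primrec fun a => (z a).1 := Primrec.fst.comp h

theorem zN (h : Primrec z) : Primrec fun a => (z a).2.1.1 :=
  Primrec.fst.comp (Primrec.fst.comp (Primrec.snd.comp h))

theorem zM (h : Primrec z) : Primrec fun a => (z a).2.2.1 :=
  Primrec.fst.comp (Primrec.snd.comp (Primrec.snd.comp h))

theorem zMm (h : Primrec z) : Primrec fun a => (z a).2.2.1 * bs (z a).1 :=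
  Primrec.nat_mul.comp (zM h) (bs_pr h)

theorem sg_pr {n m T x j : α → ℕ} (hn : Primrec n) (hm : Primrec m) (hT : Primrec T)
    (hx : Primrec x) (hj : Primrec j) : Primrec fun a => sg (n a) (m a) (T a) (x a) (j a) :=
  Primrec.ite (Primrec.nat_lt.comp hj hn)
    (Primrec.nat_add.comp (Primrec.nat_mul.comp hx hm) hj) (Primrec.nat_add.comp hT hj)

end

theorem r1_pr : Primrec fun z : Z => (List.range z.2.2.1).flatMap
    (fun x => (kx z.1 x).2.map fun w =>
      mp (sg (kx z.1 x).1 (bs z.1) (z.2.2.1 * bs z.1 + z.2.1.1) x) w) := by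
  refine Primrec.list_flatMap (f := fun z : Z => List.range z.2.2.1)
    (g := fun (z : Z) x => (kx z.1 x).2.map fun w =>
      mp (sg (kx z.1 x).1 (bs z.1) (z.2.2.1 * bs z.1 + z.2.1.1) x) w)
    (Primrec.list_range.comp (zM Primrec.id)) ?_
  refine Primrec.list_map (f := fun y : Z × ℕ => (kx y.1.1 y.2).2)
    (g := fun (y : Z × ℕ) w =>
      mp (sg (kx y.1.1 y.2).1 (bs y.1.1) (y.1.2.2.1 * bs y.1.1 + y.1.2.1.1) y.2) w)
    (Primrec.snd.comp (kx_pr (zL Primrec.fst) Primrec.snd)) ?_
  refine mp_pr (σ := fun (u : (Z × ℕ) × Wd) j =>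
    sg (kx u.1.1.1 u.1.2).1 (bs u.1.1.1) (u.1.1.2.2.1 * bs u.1.1.1 + u.1.1.2.1.1) u.1.2 j) ?_
    Primrec.snd
  have hz : Primrec fun v : ((Z × ℕ) × Wd) × ℕ => v.1.1.1 :=
    Primrec.fst.comp (Primrec.fst.comp Primrec.fst)
  have hx : Primrec fun v : ((Z × ℕ) × Wd) × ℕ => v.1.1.2 :=
    Primrec.snd.comp (Primrec.fst.comp Primrec.fst)
  exact sg_pr (Primrec.fst.comp (kx_pr (zL hz) hx)) (bs_pr hz)
    (Primrec.nat_add.comp (zMm hz) (zN hz)) hx Primrec.snd

theorem r1'_pr : Primrec fun z : Z => (List.range z.2.2.1).flatMap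
    (fun x => (List.range (bs z.1)).map fun j =>
      if j < (kx z.1 x).1 then ([] : Wd) else [(x * bs z.1 + j, true)]) := by
  refine Primrec.list_flatMap (f := fun z : Z => List.range z.2.2.1)
    (g := fun (z : Z) x => (List.range (bs z.1)).map fun j =>
      if j < (kx z.1 x).1 then ([] : Wd) else [(x * bs z.1 + j, true)])
    (Primrec.list_range.comp (zM Primrec.id)) ?_
  refine Primrec.list_map (f := fun y : Z × ℕ => List.range (bs y.1.1))
    (g := fun (y : Z × ℕ) j =>
      if j < (kx y.1.1 y.2).1 then ([] : Wd) else [(y.2 * bs y.1.1 + j, true)])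
    (Primrec.list_range.comp (bs_pr Primrec.fst)) ?_
  have hz : Primrec fun v : (Z × ℕ) × ℕ => v.1.1 := Primrec.fst.comp Primrec.fst
  have hx : Primrec fun v : (Z × ℕ) × ℕ => v.1.2 := Primrec.snd.comp Primrec.fst
  exact Primrec.ite (Primrec.nat_lt.comp Primrec.snd (Primrec.fst.comp (kx_pr (zL hz) hx)))
    (Primrec.const []) (lt_pr (Primrec.nat_add.comp (Primrec.nat_mul.comp hx (bs_pr hz))
      Primrec.snd))

theorem r2_pr : Primrec fun z : Z => (List.range z.2.2.1).flatMap (fun x =>
    (List.range z.2.2.1).flatMap fun y => (List.range (bs z.1)).flatMap fun i =>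
      (List.range (bs z.1)).map fun j =>
        if x = y then [] else cmw [(x * bs z.1 + i, true)] [(y * bs z.1 + j, true)]) := by
  refine Primrec.list_flatMap (f := fun z : Z => List.range z.2.2.1)
    (g := fun (z : Z) x => (List.range z.2.2.1).flatMap fun y =>
      (List.range (bs z.1)).flatMap fun i => (List.range (bs z.1)).map fun j =>
        if x = y then [] else cmw [(x * bs z.1 + i, true)] [(y * bs z.1 + j, true)])
    (Primrec.list_range.comp (zM Primrec.id)) ?_
  refine Primrec.list_flatMap (f := fun a : Z × ℕ => List.range a.1.2.2.1)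
    (g := fun (a : Z × ℕ) y => (List.range (bs a.1.1)).flatMap fun i =>
      (List.range (bs a.1.1)).map fun j =>
        if a.2 = y then [] else cmw [(a.2 * bs a.1.1 + i, true)] [(y * bs a.1.1 + j, true)])
    (Primrec.list_range.comp (zM Primrec.fst)) ?_
  refine Primrec.list_flatMap (f := fun b : (Z × ℕ) × ℕ => List.range (bs b.1.1.1))
    (g := fun (b : (Z × ℕ) × ℕ) i => (List.range (bs b.1.1.1)).map fun j =>
        if b.1.2 = b.2 then [] else
          cmw [(b.1.2 * bs b.1.1.1 + i, true)] [(b.2 * bs b.1.1.1 + j, true)])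
    (Primrec.list_range.comp (bs_pr (Primrec.fst.comp Primrec.fst))) ?_
  refine Primrec.list_map (f := fun c : ((Z × ℕ) × ℕ) × ℕ => List.range (bs c.1.1.1.1))
    (g := fun (c : ((Z × ℕ) × ℕ) × ℕ) j => if c.1.1.2 = c.1.2 then [] else
          cmw [(c.1.1.2 * bs c.1.1.1.1 + c.2, true)] [(c.1.2 * bs c.1.1.1.1 + j, true)])
    (Primrec.list_range.comp (bs_pr (Primrec.fst.comp (Primrec.fst.comp Primrec.fst)))) ?_
  have hz : Primrec fun d : (((Z × ℕ) × ℕ) × ℕ) × ℕ => d.1.1.1.1 :=
    Primrec.fst.comp (Primrec.fst.comp (Primrec.fst.comp Primrec.fst))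
  have hx : Primrec fun d : (((Z × ℕ) × ℕ) × ℕ) × ℕ => d.1.1.1.2 :=
    Primrec.snd.comp (Primrec.fst.comp (Primrec.fst.comp Primrec.fst))
  have hy : Primrec fun d : (((Z × ℕ) × ℕ) × ℕ) × ℕ => d.1.1.2 :=
    Primrec.snd.comp (Primrec.fst.comp Primrec.fst)
  have hi : Primrec fun d : (((Z × ℕ) × ℕ) × ℕ) × ℕ => d.1.2 := Primrec.snd.comp Primrec.fst
  exact Primrec.ite (Primrec.eq.comp hx hy) (Primrec.const [])
    (cmw_pr (lt_pr (Primrec.nat_add.comp (Primrec.nat_mul.comp hx (bs_pr hz)) hi))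
      (lt_pr (Primrec.nat_add.comp (Primrec.nat_mul.comp hy (bs_pr hz)) Primrec.snd)))

theorem r3_pr : Primrec fun z : Z =>
    (K z.2.1).2.map (fun w => mp (fun i => z.2.2.1 * bs z.1 + i) w) := by
  refine Primrec.list_map (f := fun z : Z => (K z.2.1).2)
    (g := fun (z : Z) w => mp (fun i => z.2.2.1 * bs z.1 + i) w)
    (Primrec.snd.comp (FinC.K_pr.comp (Primrec.fst.comp Primrec.snd))) ?_
  refine mp_pr (σ := fun (u : Z × Wd) i => u.1.2.2.1 * bs u.1.1 + i) ?_ Primrec.snd
  exact Primrec.nat_add.comp (zMm (Primrec.fst.comp Primrec.fst)) Primrec.snd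

theorem r4_pr : Primrec fun z : Z => (List.range z.2.1.1).flatMap (fun q =>
    (List.range z.2.2.1).flatMap fun x => (List.range (bs z.1)).map fun j =>
        [(z.2.2.1 * bs z.1 + q, true), (x * bs z.1 + j, true), (z.2.2.1 * bs z.1 + q, false),
          (ml z.2.2 q x * bs z.1 + j, false)]) := by
  refine Primrec.list_flatMap (f := fun z : Z => List.range z.2.1.1)
    (g := fun (z : Z) q => (List.range z.2.2.1).flatMap fun x => (List.range (bs z.1)).map fun j =>
        [(z.2.2.1 * bs z.1 + q, true), (x * bs z.1 + j, true), (z.2.2.1 * bs z.1 + q, false),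
          (ml z.2.2 q x * bs z.1 + j, false)])
    (Primrec.list_range.comp (zN Primrec.id)) ?_
  refine Primrec.list_flatMap (f := fun a : Z × ℕ => List.range a.1.2.2.1)
    (g := fun (a : Z × ℕ) x => (List.range (bs a.1.1)).map fun j =>
        [(a.1.2.2.1 * bs a.1.1 + a.2, true), (x * bs a.1.1 + j, true),
          (a.1.2.2.1 * bs a.1.1 + a.2, false), (ml a.1.2.2 a.2 x * bs a.1.1 + j, false)])
    (Primrec.list_range.comp (zM Primrec.fst)) ?_
  refine Primrec.list_map (f := fun b : (Z × ℕ) × ℕ => List.range (bs b.1.1.1))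
    (g := fun (b : (Z × ℕ) × ℕ) j =>
        [(b.1.1.2.2.1 * bs b.1.1.1 + b.1.2, true), (b.2 * bs b.1.1.1 + j, true),
          (b.1.1.2.2.1 * bs b.1.1.1 + b.1.2, false),
          (ml b.1.1.2.2 b.1.2 b.2 * bs b.1.1.1 + j, false)])
    (Primrec.list_range.comp (bs_pr (Primrec.fst.comp Primrec.fst))) ?_
  have hz : Primrec fun d : ((Z × ℕ) × ℕ) × ℕ => d.1.1.1 :=
    Primrec.fst.comp (Primrec.fst.comp Primrec.fst)
  have hq : Primrec fun d : ((Z × ℕ) × ℕ) × ℕ => d.1.1.2 :=
    Primrec.snd.comp (Primrec.fst.comp Primrec.fst)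
  have hx : Primrec fun d : ((Z × ℕ) × ℕ) × ℕ => d.1.2 := Primrec.snd.comp Primrec.fst
  have h1 : Primrec fun d : ((Z × ℕ) × ℕ) × ℕ => d.1.1.1.2.2.1 * bs d.1.1.1.1 + d.1.1.2 :=
    Primrec.nat_add.comp (zMm hz) hq
  have h2 : Primrec fun d : ((Z × ℕ) × ℕ) × ℕ => d.1.2 * bs d.1.1.1.1 + d.2 :=
    Primrec.nat_add.comp (Primrec.nat_mul.comp hx (bs_pr hz)) Primrec.snd
  have h3 : Primrec fun d : ((Z × ℕ) × ℕ) × ℕ =>
      ml d.1.1.1.2.2 d.1.1.2 d.1.2 * bs d.1.1.1.1 + d.2 :=
    Primrec.nat_add.comp (Primrec.nat_mul.comp (FinC.ml_pr (Primrec.snd.comp (Primrec.snd.comp hz))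
      hq hx) (bs_pr hz)) Primrec.snd
  exact Primrec.list_cons.comp (Primrec.pair h1 (Primrec.const true))
    (Primrec.list_cons.comp (Primrec.pair h2 (Primrec.const true))
      (Primrec.list_cons.comp (Primrec.pair h1 (Primrec.const false))
        (Primrec.list_cons.comp (Primrec.pair h3 (Primrec.const false)) (Primrec.const []))))

theorem code_pr : Primrec fun z : Z => code z.1 z.2.1 z.2.2 := by
  unfold code
  refine Primrec.pair (Primrec.nat_add.comp (zMm Primrec.id) (zN Primrec.id)) ?_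
  exact Primrec.list_append.comp r1_pr (Primrec.list_append.comp r1'_pr
    (Primrec.list_append.comp r2_pr (Primrec.list_append.comp r3_pr r4_pr)))

end Pool.Agent.U670.WC
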