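import Pool.Agent.U670.WC.Asm

set_option autoImplicit false
set_option linter.unusedSectionVars false

/-!
# Free products are irreducible; combination with direct and free products
-/

namespace Pool.Agent.U670.WC

open Monoid Monoid.Coprod Pool.Agent.Q223.IS Pool.Agent.Q32.DP Pool.Agent.Helper926
  Pool.Agent.Helper926.RE Pool.Agent.Helper270.Cop Pool.Agent.H599R3.RH Pool.Agent.U181.IP

theorem mem_sup_comm {G : Type} [Group G] {P R : Subgroup G}
    (h : ∀ p ∈ P, ∀ r ∈ R, p * r = r * p) {g : G} (hg : g ∈ P ⊔ R) :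
    ∃ p ∈ P, ∃ r ∈ R, g = p * r := by
  let T : Subgroup G :=
    { carrier := {g | ∃ p ∈ P, ∃ r ∈ R, g = p * r}
      mul_mem' := by
        rintro _ _ ⟨p, hp, r, hr, rfl⟩ ⟨p', hp', r', hr', rfl⟩
        refine ⟨p * p', P.mul_mem hp hp', r * r', R.mul_mem hr hr', ?_⟩
        rw [mul_assoc, ← mul_assoc r, ← h p' hp' r hr, mul_assoc, mul_assoc]
      one_mem' := ⟨1, P.one_mem, 1, R.one_mem, (one_mul 1).symm⟩
      inv_mem' := by
        rintro _ ⟨p, hp, r, hr, rfl⟩
        refine ⟨p⁻¹, P.inv_mem hp, r⁻¹, R.inv_mem hr, ?_⟩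
        rw [h p hp r hr, mul_inv_rev] }
  have h1 : P ⊔ R ≤ T := sup_le (fun p hp => ⟨p, hp, 1, R.one_mem, (mul_one p).symm⟩)
    (fun r hr => ⟨1, P.one_mem, r, hr, (one_mul r).symm⟩)
  exact h1 hg

/-- the subgroup generated by two commuting nontrivial subgroups is not a free product -/
theorem sup_not_splits {G : Type} [Group G] {P R : Subgroup G}
    (h : ∀ p ∈ P, ∀ r ∈ R, p * r = r * p) (hP : P ≠ ⊥) (hR : R ≠ ⊥) :
    ¬ Splits (P ⊔ R : Subgroup G) := by
  rintro ⟨C, D, iC, iD, hC, hD, ⟨e⟩⟩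
  obtain ⟨c, hc⟩ := exists_ne (1 : C)
  obtain ⟨d, hd⟩ := exists_ne (1 : D)
  have hcen := FREE.centerless (A := C) (B := D) hc hd
  have hcen' : ∀ z : (P ⊔ R : Subgroup G), (∀ g, z * g = g * z) → z = 1 := by
    intro z hz
    apply e.injective
    rw [map_one]
    apply hcen
    intro g
    obtain ⟨g, rfl⟩ := e.surjective g
    rw [← map_mul, ← map_mul, hz]
  have hPR : ∀ x, x ∈ P → x ∈ R → x = 1 := by
    intro x hxP hxR
    have hx : x ∈ P ⊔ R := (le_sup_left : P ≤ P ⊔ R) hxP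
    have h1 := hcen' ⟨x, hx⟩ (by
      rintro ⟨g, hg⟩
      apply Subtype.ext
      show x * g = g * x
      obtain ⟨p, hp, r, hr, rfl⟩ := mem_sup_comm h hg
      rw [← mul_assoc, ← h p hp x hxR, mul_assoc, h x hxP r hr, ← mul_assoc])
    exact congrArg Subtype.val h1
  let f : P × R →* (P ⊔ R : Subgroup G) := MonoidHom.mk' (fun x => ⟨x.1.1 * x.2.1,
    Subgroup.mul_mem_sup x.1.2 x.2.2⟩) (by
      rintro ⟨⟨p, hp⟩, ⟨r, hr⟩⟩ ⟨⟨p', hp'⟩, ⟨r', hr'⟩⟩
      apply Subtype.ext
      show p * p' * (r * r') = p * r * (p' * r')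
      rw [mul_assoc p r, ← mul_assoc r, ← h p' hp' r hr, mul_assoc, mul_assoc])
  have hf : Function.Bijective f := by
    constructor
    · rw [injective_iff_map_eq_one]
      rintro ⟨⟨p, hp⟩, ⟨r, hr⟩⟩ hpr
      have h1 : p * r = 1 := congrArg Subtype.val hpr
      have h2 : p = 1 := by
        refine hPR p hp ?_
        rw [mul_eq_one_iff_eq_inv.1 h1]
        exact R.inv_mem hr
      have h3 : r = 1 := by rwa [h2, one_mul] at h1
      exact Prod.ext (Subtype.ext h2) (Subtype.ext h3)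
    · rintro ⟨g, hg⟩
      obtain ⟨p, hp, r, hr, rfl⟩ := mem_sup_comm h hg
      exact ⟨(⟨p, hp⟩, ⟨r, hr⟩), rfl⟩
  rcases (FREE.indec (A := C) (B := D) hc hd).2 P R
    ⟨e.symm.trans (MulEquiv.ofBijective f hf).symm⟩ with h1 | h1
  · exact hP ((Subgroup.eq_bot_iff_forall P).2 fun x hx => congrArg Subtype.val (h1 ⟨x, hx⟩))
  · exact hR ((Subgroup.eq_bot_iff_forall R).2 fun x hx => congrArg Subtype.val (h1 ⟨x, hx⟩))

section

variable {A B : Type} [Group A] [Group B]

open Classical in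
/-- the exponent sum of a generator -/
noncomputable def expo (x : X A B) : FreeGroup (X A B) →* Multiplicative ℤ :=
  FreeGroup.lift fun y => if y = x then Multiplicative.ofAdd 1 else 1

theorem expo_same (x : X A B) (n : ℤ) :
    expo x (FreeGroup.of x ^ n) = Multiplicative.ofAdd n := by
  unfold expo
  rw [map_zpow, FreeGroup.lift_apply_of, if_pos rfl, ← ofAdd_zsmul, smul_eq_mul, mul_one]

theorem expo_ne {x y : X A B} (h : y ≠ x) (n : ℤ) : expo x (FreeGroup.of y ^ n) = 1 := by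
  unfold expo
  rw [map_zpow, FreeGroup.lift_apply_of, if_neg h, one_zpow]

theorem of_ne (x : X A B) {n : ℤ} (hn : n ≠ 0) : (FreeGroup.of x : FreeGroup (X A B)) ^ n ≠ 1 := by
  intro h
  have h1 := congrArg (expo x) h
  rw [expo_same, map_one] at h1
  exact hn h1

/-- a free product of two nontrivial groups, not both of order two, is not virtually cyclic -/
theorem not_iCyc_fi {S : Subgroup (Coprod A B)} (hS : S.FiniteIndex) {x y : X A B} (hxy : x ≠ y) :
    ¬ ICyc S := by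
  rintro ⟨t, ht, -⟩
  obtain ⟨n, hn, -, h1⟩ := Subgroup.exists_pow_mem_of_index_ne_zero hS.index_ne_zero
    (commHom (FreeGroup.of x) : Coprod A B)
  obtain ⟨m, hm, -, h2⟩ := Subgroup.exists_pow_mem_of_index_ne_zero hS.index_ne_zero
    (commHom (FreeGroup.of y) : Coprod A B)
  obtain ⟨i, hi⟩ := ht ⟨_, h1⟩
  obtain ⟨j, hj⟩ := ht ⟨_, h2⟩
  have hi' : (t : Coprod A B) ^ i = commHom (FreeGroup.of x) ^ n := congrArg Subtype.val hi
  have hj' : (t : Coprod A B) ^ j = commHom (FreeGroup.of y) ^ m := congrArg Subtype.val hj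
  have h3 : (commHom (FreeGroup.of x ^ ((n : ℤ) * j)) : Coprod A B) =
      commHom (FreeGroup.of y ^ ((m : ℤ) * i)) := by
    rw [map_zpow, map_zpow, zpow_mul, zpow_mul, zpow_natCast, zpow_natCast, ← hi', ← hj',
      ← zpow_mul, ← zpow_mul, mul_comm]
  have h4 := commHom_inj h3
  have h5 := congrArg (expo x) h4
  rw [expo_same, expo_ne hxy.symm] at h5
  have h6 : (n : ℤ) * j = 0 := h5
  have hj0 : j = 0 := (mul_eq_zero.1 h6).resolve_left (by exact_mod_cast hn.ne')
  rw [hj0, zpow_zero, ← map_pow, ← map_one (commHom : FreeGroup (X A B) →* Coprod A B)] at hj'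
  have h7 := commHom_inj hj'
  refine of_ne y (n := (m : ℤ)) (by exact_mod_cast hm.ne') ?_
  rw [zpow_natCast]
  exact h7.symm

theorem fst_comm (w : FreeGroup (X A B)) :
    Coprod.fst (commHom w : Coprod A B) = 1 ∧ Coprod.snd (commHom w : Coprod A B) = 1 := by
  induction w using FreeGroup.induction_on with
  | C1 => simp
  | of p =>
    constructor
    · simp [commHom, Pool.Agent.Helper270.Cop.cm]
    · simp [commHom, Pool.Agent.Helper270.Cop.cm]
  | inv_of p ih =>
    rw [map_inv, map_inv, map_inv, ih.1, ih.2]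
    simp
  | mul a b ha hb =>
    rw [map_mul, map_mul, map_mul, ha.1, hb.1, ha.2, hb.2]
    simp

theorem core_aux {S : Subgroup (Coprod A B)} (hS : S.FiniteIndex) (x : X A B) {g : Coprod A B}
    {T : Coprod A B → Prop} (h : ∀ s ∈ S, ∃ c, T c ∧ s = g * c * g⁻¹) :
    ∃ w : FreeGroup (X A B), w ≠ 1 ∧ T (commHom w) := by
  obtain ⟨n, hn, -, h1⟩ := Subgroup.exists_pow_mem_of_index_ne_zero
    (Subgroup.FiniteIndex.index_ne_zero (H := S.normalCore)) (commHom (FreeGroup.of x) : Coprod A B)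
  have h2 := Subgroup.Normal.conj_mem (Subgroup.normalCore_normal S) _ h1 g
  obtain ⟨c, hc, h3⟩ := h _ (Subgroup.normalCore_le S h2)
  have h4 : commHom (FreeGroup.of x) ^ n = c := by
    have h5 := mul_right_cancel h3
    exact mul_left_cancel h5
  refine ⟨FreeGroup.of x ^ n, ?_, ?_⟩
  · have h5 := of_ne x (n := (n : ℤ)) (by exact_mod_cast hn.ne')
    rwa [zpow_natCast] at h5
  · rw [map_pow, h4]
    exact hc

/-- a free product of two nontrivial groups, not both of order two, is irreducible -/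
theorem irr_coprod {x y : X A B} (hxy : x ≠ y) : Irr (Coprod A B) := by
  have hinj : ∀ w : FreeGroup (X A B), w ≠ 1 → (commHom w : Coprod A B) ≠ 1 := by
    intro w hw h
    apply hw
    rw [← map_one (commHom : FreeGroup (X A B) →* Coprod A B)] at h
    exact commHom_inj h
  refine ⟨⟨inl x.1.1, FREE.inl_ne x.2.1⟩, ?_⟩
  intro P R hPR hfi
  by_contra hcon
  rw [not_or] at hcon
  obtain ⟨hP, hR⟩ := hcon
  have hnt : ∃ g : (P ⊔ R : Subgroup (Coprod A B)), g ≠ 1 := by
    obtain ⟨⟨p, hp⟩, hp1⟩ := Subgroup.ne_bot_iff_exists_ne_one.1 hP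
    refine ⟨⟨p, (le_sup_left : P ≤ P ⊔ R) hp⟩, fun h => hp1 ?_⟩
    have h1 : p = 1 := congrArg Subtype.val h
    exact Subtype.ext h1
  rcases kurosh (P ⊔ R : Subgroup (Coprod A B)).subtype Subtype.val_injective
    (sup_not_splits hPR hP hR) (not_iCyc_fi hfi hxy) hnt with ⟨g, hg⟩ | ⟨g, hg⟩
  · obtain ⟨w, hw, c, hc⟩ := core_aux hfi x (g := g) (T := fun z => ∃ c : A, z = inl c) (by
      intro s hs
      obtain ⟨c, hc⟩ := hg ⟨s, hs⟩
      exact ⟨inl c, ⟨c, rfl⟩, hc⟩)
    have h1 := (fst_comm w).1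
    rw [hc, Coprod.fst_apply_inl] at h1
    rw [h1, map_one] at hc
    exact hinj w hw hc
  · obtain ⟨w, hw, c, hc⟩ := core_aux hfi x (g := g) (T := fun z => ∃ c : B, z = inr c) (by
      intro s hs
      obtain ⟨c, hc⟩ := hg ⟨s, hs⟩
      exact ⟨inr c, ⟨c, rfl⟩, hc⟩)
    have h1 := (fst_comm w).2
    rw [hc, Coprod.snd_apply_inr] at h1
    rw [h1, map_one] at hc
    exact hinj w hw hc

end

end Pool.Agent.U670.WC
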