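import Pool.Agent.U670.WC.Code
import Pool.Agent.U670.WP.Iso

set_option autoImplicit false
set_option linter.unusedSectionVars false

/-!
# The group of the code
-/

namespace Pool.Agent.U670.WC

open SemidirectProduct Pool.Agent.Q223.IS Pool.Agent.Q32.DP Pool.Agent.U181.IP
  Pool.Agent.U181.IP.FinT Pool.Agent.Q32.DP.PROD2
open Pool.Agent.U670.WP (comm_gen div_lt lt_Mm)

/-- the tables of a finite group and its action, with the list of the factors -/
def Act {I : Type} (w : Z) (X : I → Type) (k : I → Pres) (Q : Type) [Group Q]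
    [∀ i, MulAction Q (X i)] : Prop :=
  w.1.length = w.2.2.1 ∧ ∃ (e : Q ≃ Fin w.2.1.1) (u : (Σ i, X i) ≃ Fin w.2.2.1),
    (∀ x y, (e (x * y) : ℕ) = ml w.2.1 (e x) (e y)) ∧
    (∀ q p, (u (q • p) : ℕ) = ml w.2.2 (e q) (u p)) ∧ ∀ p, kx w.1 (u p) = k p.1

theorem le_bs {L : List Pres} {a : Pres} (h : a ∈ L) : a.1 ≤ bs L := by
  induction L with
  | nil => exact absurd h (by simp)
  | cons b L ih =>
    have h1 : bs (b :: L) = b.1 + bs L := by
      unfold bs
      rw [List.map_cons, List.sum_cons]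
    rw [h1]
    rcases List.mem_cons.1 h with h | h
    · rw [h]
      omega
    · have := ih h
      omega

theorem kx_mem {L : List Pres} {x : ℕ} (h : x < L.length) : kx L x ∈ L := by
  unfold kx
  rw [List.getD_eq_getElem _ _ h]
  exact List.getElem_mem h

section

variable {I : Type} [DecidableEq I] {X : I → Type} [∀ i, DecidableEq (X i)] {k : I → Pres}
  {L : List Pres} {t s : ℕ × ℕ} {Q : Type} [Group Q] [∀ i, MulAction Q (X i)]

/-- the groups -/
abbrev GG (k : I → Pres) (i : I) : Type := PG (k i)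

/-- the generators in the semidirect product -/
noncomputable def bb (k : I → Pres) (L : List Pres) {t s : ℕ × ℕ} (e : Q ≃ Fin t.1)
    (u : (Σ i, X i) ≃ Fin s.1) (n : ℕ) : CWr X (GG k) Q :=
  if h : n < s.1 * bs L then inl (S (u.symm ⟨n / bs L, div_lt h⟩).1 (u.symm ⟨n / bs L, div_lt h⟩).2
    (gen (k (u.symm ⟨n / bs L, div_lt h⟩).1) (n % bs L)))
  else if h : n - s.1 * bs L < t.1 then inr (e.symm ⟨n - s.1 * bs L, h⟩) else 1

theorem b1 (e : Q ≃ Fin t.1) (u : (Σ i, X i) ≃ Fin s.1) (p : Σ i, X i) {j : ℕ} (hj : j < bs L) :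
    bb k L e u (u p * bs L + j) = inl (S p.1 p.2 (gen (k p.1) j)) := by
  have hlt := lt_Mm (u p).2 hj
  have h1 : (u p * bs L + j) / bs L = u p := by
    rw [mul_comm, Nat.mul_add_div (by omega), Nat.div_eq_of_lt hj, add_zero]
  have h2 : (u p * bs L + j) % bs L = j := by
    rw [mul_comm, Nat.mul_add_mod, Nat.mod_eq_of_lt hj]
  unfold bb
  rw [dif_pos hlt]
  have h3 : ∀ h, u.symm ⟨(u p * bs L + j) / bs L, h⟩ = p := by
    intro h
    rw [Equiv.symm_apply_eq]
    exact Fin.ext h1
  rw [h2]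
  have h4 : ∀ r : Σ i, X i, r = p → (inl (S r.1 r.2 (gen (k r.1) j)) : CWr X (GG k) Q) =
      inl (S p.1 p.2 (gen (k p.1) j)) := by
    rintro _ rfl
    rfl
  exact h4 _ (h3 _)

theorem b2 (e : Q ≃ Fin t.1) (u : (Σ i, X i) ≃ Fin s.1) (q : Q) :
    bb k L e u (s.1 * bs L + e q) = inr q := by
  unfold bb
  rw [dif_neg (by omega)]
  have h1 : s.1 * bs L + (e q : ℕ) - s.1 * bs L = e q := by omega
  rw [dif_pos (by rw [h1]; exact (e q).2)]
  congr 1
  rw [Equiv.symm_apply_eq]
  exact Fin.ext h1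

theorem b3 (e : Q ≃ Fin t.1) (u : (Σ i, X i) ≃ Fin s.1) {n : ℕ} (h : s.1 * bs L + t.1 ≤ n) :
    bb k L e u n = 1 := by
  unfold bb
  rw [dif_neg (by omega), dif_neg (by omega)]

theorem bsg (e : Q ≃ Fin t.1) (u : (Σ i, X i) ≃ Fin s.1) (p : Σ i, X i) (hk : (k p.1).1 ≤ bs L)
    (j : ℕ) : bb k L e u (sg (k p.1).1 (bs L) (s.1 * bs L + t.1) (u p) j) =
      inl (S p.1 p.2 (gen (k p.1) j)) := by
  unfold sg
  by_cases hj : j < (k p.1).1
  · rw [if_pos hj, b1 e u p (by omega)]
  · rw [if_neg hj, b3 e u (by omega), gen_big (k p.1) (by omega), S_one, map_one]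

theorem code_iso [Finite (Σ i, X i)] (h : Act (L, t, s) X k Q) :
    Nonempty (PG (code L t s) ≃* CWr X (GG k) Q) := by
  classical
  obtain ⟨hlen, e, u, he, hu, hk⟩ := h
  have hlen : L.length = s.1 := hlen
  have he : ∀ x y, (e (x * y) : ℕ) = ml t (e x) (e y) := he
  have hu : ∀ q p, (u (q • p) : ℕ) = ml s (e q) (u p) := hu
  have hk : ∀ p, kx L (u p) = k p.1 := hk
  have : Fintype (Σ i, X i) := Fintype.ofFinite _
  have hX : ∀ x, x < s.1 → ∃ y : Σ i, X i, (u y : ℕ) = x := fun x hx =>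
    ⟨u.symm ⟨x, hx⟩, by rw [u.apply_symm_apply]⟩
  have hQ : ∀ q, q < t.1 → ∃ r : Q, (e r : ℕ) = q := fun x hx =>
    ⟨e.symm ⟨x, hx⟩, by rw [e.apply_symm_apply]⟩
  have hle : ∀ p : Σ i, X i, (k p.1).1 ≤ bs L := by
    intro p
    rw [← hk]
    exact le_bs (kx_mem (lt_of_lt_of_eq (u p).2 hlen.symm))
  obtain ⟨F, hF⟩ := PG_lift (code L t s) (bb k L e u) (fun i hi => b3 e u hi) (by
    intro w hw
    rcases mem_code.1 hw with ⟨x, hx, v, hv, rfl⟩ | ⟨x, hx, j, hj, rfl⟩ |
      ⟨x, hx, y, hy, i, hi, j, hj, rfl⟩ | ⟨v, hv, rfl⟩ | ⟨q, hq, x, hx, j, hj, rfl⟩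
    · obtain ⟨p, rfl⟩ := hX x hx
      rw [ev_mp, hk]
      rw [hk] at hv
      have h1 : (fun i => bb k L e u (sg (k p.1).1 (bs L) (s.1 * bs L + t.1) (u p) i)) = fun i =>
          ((inl : (∀ i, X i → GG k i) →* CWr X (GG k) Q).comp (cur.comp
            (MonoidHom.mulSingle (fun p : Σ i, X i => GG k p.1) p))) (gen (k p.1) i) := by
        funext i
        rw [bsg e u p (hle p)]
        show _ = inl (cur (Pi.mulSingle (M := fun p : Σ i, X i => GG k p.1) p _))
        rw [cur_S]
      rw [h1, ← ev_map, PG_rel (k p.1) hv, map_one]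
    · obtain ⟨p, rfl⟩ := hX x hx
      rw [hk]
      by_cases hj' : j < (k p.1).1
      · rw [if_pos hj']
        exact ev_nil _
      · rw [if_neg hj', ev_true, b1 e u p hj, gen_big (k p.1) (by omega), S_one, map_one]
    · by_cases hxy : x = y
      · rw [if_pos hxy]
        exact ev_nil _
      · rw [if_neg hxy, ev_cmw, ev_true, ev_true]
        obtain ⟨x, rfl⟩ := hX x hx
        obtain ⟨y, rfl⟩ := hX y hy
        rw [b1 e u x hi, b1 e u y hj]
        exact (S_comm (fun h => hxy (by rw [h])) _ _).map inl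
    · obtain ⟨i, j, hi, hj, rfl⟩ := mem_K.1 hv
      obtain ⟨a, rfl⟩ := hQ i hi
      obtain ⟨b, rfl⟩ := hQ j hj
      rw [ev_mp, FinT.ev_rel, ← he, b2, b2, b2, ← map_mul, mul_inv_cancel]
    · obtain ⟨p, rfl⟩ := hX x hx
      obtain ⟨q, rfl⟩ := hQ q hq
      rw [ev_cons, ev_cons _ (u p * bs L + j, true), ev_cons _ (s.1 * bs L + e q, false), ev_true,
        ev_true, FinT.ev_false, FinT.ev_false, ← hu, b2, b1 e u p hj, b1 e u (q • p) hj,
        ← mul_assoc, conj_S]
      have h1 : (inl (S (q • p).1 (q • p).2 (gen (k (q • p).1) j)) : CWr X (GG k) Q) =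
        inl (S p.1 (q • p.2) (gen (k p.1) j)) := rfl
      rw [h1]
      group)
  have hrel : ∀ p : Σ i, X i, ∀ w ∈ (k p.1).2, ev (fun j => gen (code L t s)
      (sg (k p.1).1 (bs L) (s.1 * bs L + t.1) (u p) j)) w = 1 := by
    intro p w hw
    rw [← ev_mp]
    rw [← hk] at hw ⊢
    exact PG_rel _ (mem_code.2 (Or.inl ⟨u p, (u p).2, w, hw, rfl⟩))
  have hbig : ∀ (p : Σ i, X i) (j : ℕ), (k p.1).1 ≤ j → gen (code L t s)
      (sg (k p.1).1 (bs L) (s.1 * bs L + t.1) (u p) j) = 1 := by
    intro p j hj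
    apply gen_big
    unfold sg
    rw [if_neg (by omega)]
    show s.1 * bs L + t.1 ≤ _
    omega
  choose c hc using fun p : Σ i, X i => PG_lift (k p.1) (fun j => gen (code L t s)
      (sg (k p.1).1 (bs L) (s.1 * bs L + t.1) (u p) j)) (hbig p) (hrel p)
  have hcomm : Pairwise fun x y : Σ i, X i => ∀ (a : PG (k x.1)) (b : PG (k y.1)),
      Commute (c x a) (c y b) := by
    intro x y hxy a b
    apply comm_gen
    intro j
    apply Commute.symm
    apply comm_gen
    intro i
    rw [hc, hc]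
    by_cases hi : i < (k y.1).1
    · by_cases hj : j < (k x.1).1
      · have h1 := PG_rel (code L t s) (mem_code.2 (Or.inr (Or.inr (Or.inl ⟨u y, (u y).2, u x,
          (u x).2, i, lt_of_lt_of_le hi (hle y), j, lt_of_lt_of_le hj (hle x), rfl⟩))))
        rw [if_neg (fun h => hxy (u.injective (Fin.ext h)).symm), ev_cmw, ev_true, ev_true] at h1
        unfold sg
        rw [if_pos hi, if_pos hj]
        exact h1
      · rw [hbig x j (by omega)]
        exact Commute.one_right _
    · rw [hbig y i (by omega)]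
      exact Commute.one_left _
  let f1 : (∀ i, X i → GG k i) →* PG (code L t s) :=
    (MonoidHom.noncommPiCoprod (N := fun p : Σ i, X i => PG (k p.1)) c hcomm).comp unc
  have hf1 : ∀ (p : Σ i, X i) (a : PG (k p.1)), f1 (S p.1 p.2 a) = c p a := by
    intro p a
    show MonoidHom.noncommPiCoprod (N := fun p : Σ i, X i => PG (k p.1)) c hcomm
      (unc (G := GG k) (S (G := GG k) p.1 p.2 a)) = c p a
    rw [unc_S]
    exact MonoidHom.noncommPiCoprod_mulSingle (ϕ := c) p a
  let f2 : Q →* PG (code L t s) := MonoidHom.mk' (fun q => gen (code L t s) (s.1 * bs L + e q)) (by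
    intro q r
    have h1 := PG_rel (code L t s) (mem_code.2 (Or.inr (Or.inr (Or.inr (Or.inl
      ⟨_, mem_K.2 ⟨(e q : ℕ), (e r : ℕ), (e q).2, (e r).2, rfl⟩, rfl⟩)))))
    rw [ev_mp, FinT.ev_rel, mul_inv_eq_one, ← he] at h1
    exact h1.symm)
  have hf2 : ∀ q, f2 q = gen (code L t s) (s.1 * bs L + e q) := fun q => rfl
  have hcq : ∀ (q : Q) (p : Σ i, X i) (a : PG (k p.1)), c (q • p) a = f2 q * c p a * (f2 q)⁻¹ := by
    intro q p a
    have h1 : c (q • p) = (MulAut.conj (f2 q)).toMonoidHom.comp (c p) := by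
      apply PG_ext
      intro j
      show c (q • p) (gen (k (q • p).1) j) = f2 q * c p (gen (k p.1) j) * (f2 q)⁻¹
      rw [hc, hc]
      by_cases hj : j < (k p.1).1
      · have h1 := PG_rel (code L t s) (mem_code.2 (Or.inr (Or.inr (Or.inr (Or.inr
          ⟨(e q : ℕ), (e q).2, (u p : ℕ), (u p).2, j, lt_of_lt_of_le hj (hle p), rfl⟩)))))
        rw [ev_cons, ev_cons _ (u p * bs L + j, true), ev_cons _ (s.1 * bs L + e q, false), ev_true,
          ev_true, FinT.ev_false, FinT.ev_false, ← hu, ← mul_assoc, ← mul_assoc,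
          mul_inv_eq_one] at h1
        have hj2 : j < (k (q • p).1).1 := hj
        unfold sg
        rw [if_pos hj, if_pos hj2]
        exact h1.symm
      · rw [hbig _ j (show (k (q • p).1).1 ≤ j from not_lt.1 hj), hbig _ j (by omega), mul_one,
          mul_inv_cancel]
    exact DFunLike.congr_fun h1 a
  let P : CWr X (GG k) Q →* PG (code L t s) := SemidirectProduct.lift f1 f2 (by
    intro q
    apply cext
    intro p a
    show f1 (cAct X (GG k) Q q (S p.1 p.2 a)) = f2 q * f1 (S p.1 p.2 a) * (f2 q)⁻¹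
    rw [act_S, hf1, ← hcq]
    exact hf1 (q • p) a)
  have hP1 : ∀ (p : Σ i, X i) (a : PG (k p.1)), P (inl (S p.1 p.2 a)) = c p a := by
    intro p a
    show SemidirectProduct.lift f1 f2 _ (inl (S p.1 p.2 a)) = c p a
    rw [lift_inl, hf1]
  have hP2 : ∀ q, P (inr q) = gen (code L t s) (s.1 * bs L + e q) := by
    intro q
    show SemidirectProduct.lift f1 f2 _ (inr q) = _
    rw [lift_inr, hf2]
  refine ⟨MonoidHom.toMulEquiv F P ?_ ?_⟩
  · apply PG_ext
    intro n
    rw [MonoidHom.comp_apply, hF]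
    show P (bb k L e u n) = gen (code L t s) n
    by_cases h1 : n < s.1 * bs L
    · have hm : 0 < bs L := by
        rcases Nat.eq_zero_or_pos (bs L) with h0 | h0
        · rw [h0] at h1
          omega
        · exact h0
      have hn : n / bs L * bs L + n % bs L = n := Nat.div_add_mod' n (bs L)
      unfold bb
      rw [dif_pos h1, hP1, hc, u.apply_symm_apply]
      unfold sg
      by_cases h2 : n % bs L < (k (u.symm ⟨n / bs L, div_lt h1⟩).1).1
      · rw [if_pos h2]
        congr 1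
      · rw [if_neg h2]
        have h3 : gen (code L t s) (s.1 * bs L + t.1 + n % bs L) = 1 :=
          gen_big _ (show s.1 * bs L + t.1 ≤ _ by omega)
        rw [h3]
        have h4 := PG_rel (code L t s) (mem_code.2 (Or.inr (Or.inl
          ⟨n / bs L, div_lt h1, n % bs L, Nat.mod_lt _ hm, rfl⟩)))
        have h5 : kx L (n / bs L) = k (u.symm ⟨n / bs L, div_lt h1⟩).1 := by
          rw [← hk, u.apply_symm_apply]
        rw [h5, if_neg h2, ev_true, hn] at h4
        exact h4.symm
    · by_cases h2 : n - s.1 * bs L < t.1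
      · unfold bb
        rw [dif_neg h1, dif_pos h2, hP2, e.apply_symm_apply]
        congr 1
        show s.1 * bs L + (n - s.1 * bs L) = n
        omega
      · have h3 : s.1 * bs L + t.1 ≤ n := by omega
        rw [b3 e u h3, map_one]
        exact (gen_big _ (show s.1 * bs L + t.1 ≤ n from h3)).symm
  · apply SemidirectProduct.hom_ext
    · apply cext
      intro p a
      show F (P (inl (S p.1 p.2 a))) = inl (S p.1 p.2 a)
      rw [hP1]
      have h1 : F.comp (c p) = (inl : (∀ i, X i → GG k i) →* CWr X (GG k) Q).comp (cur.comp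
            (MonoidHom.mulSingle (fun p : Σ i, X i => GG k p.1) p)) := by
        apply PG_ext
        intro j
        show F (c p (gen (k p.1) j)) =
          inl (cur (Pi.mulSingle (M := fun p : Σ i, X i => GG k p.1) p (gen (k p.1) j)))
        rw [hc, hF, bsg e u p (hle p), cur_S]
      have h2 : F (c p a) =
        inl (cur (Pi.mulSingle (M := fun p : Σ i, X i => GG k p.1) p a)) := DFunLike.congr_fun h1 a
      rw [h2, cur_S]
    · ext q : 1
      show F (P (inr q)) = inr q
      rw [hP2, hF, b2]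

end

end Pool.Agent.U670.WC
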