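import Pool.Agent.U670.WC.Iso
import Pool.Agent.U670.WP.Tab

set_option autoImplicit false
set_option linter.unusedSectionVars false

/-!
# Tables
-/

namespace Pool.Agent.U670.WC

open SemidirectProduct Pool.Agent.Q223.IS Pool.Agent.Q32.DP Pool.Agent.U181.IP
  Pool.Agent.U181.IP.FinT Pool.Agent.U181.IP.FinC Pool.Agent.Helper926 Pool.Agent.Helper926.RE
open Pool.Agent.U670.WP (VA exists_act va_of act_of dig_eq dig_of va_cp)

/-- the list of the factors is invariant -/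
def VL (w : Z) : Prop := w.1.length = w.2.2.1 ∧
  ∀ i < w.2.1.1, ∀ x < w.2.2.1, kx w.1 (ml w.2.2 i x) = kx w.1 x

/-- valid data -/
def V (w : Z) : Prop := Valid w.2.1 ∧ VA w.2.1 w.2.2 ∧ VL w

section

variable {I : Type} {X : I → Type} {k : I → Pres} {Q : Type} [Group Q] [∀ i, MulAction Q (X i)]

theorem act_wp {w : Z} (h : Act w X k Q) : WP.Act w.2.1 w.2.2 Q (Σ i, X i) := by
  obtain ⟨-, e, u, he, hu, -⟩ := h
  exact ⟨e, u, he, hu⟩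

theorem exists_act' [Finite Q] [Finite (Σ i, X i)] [Nonempty (Σ i, X i)]
    [FaithfulSMul Q (Σ i, X i)] (k : I → Pres) : ∃ w : Z, Act w X k Q ∧ V w ∧
      ∀ a ∈ w.1, ∃ p : Σ i, X i, a = k p.1 := by
  obtain ⟨t, s, hts⟩ := exists_act Q (Σ i, X i)
  have h1 := va_of hts
  obtain ⟨e, u, he, hu⟩ := hts
  have hv : Valid t := valid_of ⟨e, he⟩
  let L : List Pres := List.ofFn fun x : Fin s.1 => k (u.symm x).1
  have hlen : L.length = s.1 := List.length_ofFn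
  have hk : ∀ p, kx L (u p) = k p.1 := by
    intro p
    have h2 : (u p : ℕ) < L.length := lt_of_lt_of_eq (u p).2 hlen.symm
    unfold kx
    rw [List.getD_eq_getElem _ _ h2, List.getElem_ofFn]
    show k (u.symm (u p)).1 = k p.1
    rw [u.symm_apply_apply]
  refine ⟨(L, t, s), ⟨hlen, e, u, he, hu, hk⟩, ⟨hv, h1, hlen, ?_⟩, ?_⟩
  · intro i hi x hx
    obtain ⟨q, rfl⟩ : ∃ q, (e q : ℕ) = i := ⟨e.symm ⟨i, hi⟩, by rw [e.apply_symm_apply]⟩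
    obtain ⟨p, rfl⟩ : ∃ p, (u p : ℕ) = x := ⟨u.symm ⟨x, hx⟩, by rw [u.apply_symm_apply]⟩
    show kx L (ml s (e q) (u p)) = kx L (u p)
    rw [← hu, hk, hk]
    rfl
  · intro a ha
    obtain ⟨x, rfl⟩ := List.mem_ofFn.1 ha
    exact ⟨u.symm x, rfl⟩

end

theorem act_of' (C : Pres → Prop) {w : Z} (hC : ∀ a ∈ w.1, C a) (h : V w) :
    ∃ (Q : Type) (X : {a : Pres // C a} → Type) (_ : Group Q)
    (_ : ∀ i, MulAction Q (X i)), Finite Q ∧ Finite (Σ i, X i) ∧ Nonempty (Σ i, X i) ∧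
      FaithfulSMul Q (Σ i, X i) ∧ Act w X (fun a => a.1) Q := by
  obtain ⟨h1, h2, h3, h4⟩ := h
  obtain ⟨Q, X0, iQ, iX, a1, a2, a3, a4, e, u, he, hu⟩ := act_of h1 h2
  let f : X0 → Pres := fun x => kx w.1 (u x)
  have hf : ∀ (q : Q) (x : X0), f (q • x) = f x := by
    intro q x
    show kx w.1 (u (q • x)) = kx w.1 (u x)
    rw [hu]
    exact h4 _ (e q).2 _ (u x).2
  have hfC : ∀ x, C (f x) := fun x => hC _ (kx_mem (lt_of_lt_of_eq (u x).2 h3.symm))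
  let _ : ∀ a : {a : Pres // C a}, MulAction Q {x : X0 // f x = a.1} := fun a =>
    { smul := fun q x => ⟨q • x.1, by rw [hf]; exact x.2⟩
      one_smul := fun x => Subtype.ext (one_smul Q x.1)
      mul_smul := fun q r x => Subtype.ext (mul_smul q r x.1) }
  let v : (Σ a : {a : Pres // C a}, {x : X0 // f x = a.1}) ≃ X0 :=
    { toFun := fun p => p.2.1
      invFun := fun x => ⟨⟨f x, hfC x⟩, x, rfl⟩
      left_inv := by
        rintro ⟨⟨a, ha⟩, x, hx⟩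
        have hx' : f x = a := hx
        subst hx'
        rfl
      right_inv := fun x => rfl }
  have hv : ∀ (q : Q) (p : Σ a : {a : Pres // C a}, {x : X0 // f x = a.1}),
    v (q • p) = q • v p := fun q p => rfl
  refine ⟨Q, fun a => {x : X0 // f x = a.1}, iQ, inferInstance, a1, Finite.of_equiv _ v.symm,
    v.symm.nonempty_congr.1 a3, ⟨fun {q r} hqr => ?_⟩, h3, e, v.trans u, he, ?_, ?_⟩
  · apply FaithfulSMul.eq_of_smul_eq_smul (α := X0)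
    intro x
    obtain ⟨p, rfl⟩ := v.surjective x
    rw [← hv, ← hv, hqr]
  · intro q p
    show (u (v (q • p)) : ℕ) = ml w.2.2 (e q) (u (v p))
    rw [hv, hu]
  · rintro ⟨a, x, hx⟩
    exact hx

/-- isomorphism of the tables such that no pair of corresponding factors is in the list `B` -/
def IsoB (a b : Z) (B : List (Pres × Pres)) : Prop := a.2.1.1 = b.2.1.1 ∧ a.2.2.1 = b.2.2.1 ∧
  ∃ c, c < a.2.1.1 ^ a.2.1.1 ∧ ∃ d, d < a.2.2.1 ^ a.2.2.1 ∧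
    (∀ i < a.2.1.1, ∀ j < a.2.1.1, dg a.2.1.1 c i = dg a.2.1.1 c j → i = j) ∧
    (∀ i < a.2.2.1, ∀ j < a.2.2.1, dg a.2.2.1 d i = dg a.2.2.1 d j → i = j) ∧
    (∀ i < a.2.1.1, ∀ x < a.2.2.1,
      dg a.2.2.1 d (ml a.2.2 i x) = ml b.2.2 (dg a.2.1.1 c i) (dg a.2.2.1 d x)) ∧
    ∀ x < a.2.2.1, ¬ (kx a.1 x, kx b.1 (dg a.2.2.1 d x)) ∈ B

theorem isoB_iff {a b : Z} {I J : Type} {X : I → Type} {Y : J → Type} {k : I → Pres}
    {l : J → Pres} {Q R : Type} [Group Q] [∀ i, MulAction Q (X i)] [Group R]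
    [∀ i, MulAction R (Y i)] [Nonempty (Σ i, X i)] (h : Act a X k Q) (h' : Act b Y l R)
    (B : List (Pres × Pres)) :
    (∃ (θ : Q ≃ R) (σ : (Σ i, X i) ≃ (Σ j, Y j)), (∀ q p, σ (q • p) = θ q • σ p) ∧
      ∀ p, ¬ (k p.1, l (σ p).1) ∈ B) ↔ IsoB a b B := by
  obtain ⟨hlen, e, u, he, hu, hk⟩ := h
  obtain ⟨hlen', e', u', he', hu', hk'⟩ := h'
  have hs : ∀ i, i < a.2.1.1 → ∃ g, (e g : ℕ) = i := fun i hi =>
    ⟨e.symm ⟨i, hi⟩, by rw [e.apply_symm_apply]⟩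
  have ht : ∀ i, i < a.2.2.1 → ∃ g, (u g : ℕ) = i := fun i hi =>
    ⟨u.symm ⟨i, hi⟩, by rw [u.apply_symm_apply]⟩
  constructor
  · rintro ⟨θ, σ, hθ, hB⟩
    have h1 : a.2.1.1 = b.2.1.1 := Fin.equiv_iff_eq.1 ⟨(e.symm.trans θ).trans e'⟩
    have h2 : a.2.2.1 = b.2.2.1 := Fin.equiv_iff_eq.1 ⟨(u.symm.trans σ).trans u'⟩
    obtain ⟨c, hc, hc'⟩ := dig_eq e e' θ h1
    obtain ⟨d, hd, hd'⟩ := dig_eq u u' σ h2
    refine ⟨h1, h2, c, hc, d, hd, ?_, ?_, ?_, ?_⟩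
    · intro i hi j hj hij
      obtain ⟨i, rfl⟩ := hs i hi
      obtain ⟨j, rfl⟩ := hs j hj
      rw [hc', hc'] at hij
      rw [θ.injective (e'.injective (Fin.ext hij))]
    · intro i hi j hj hij
      obtain ⟨i, rfl⟩ := ht i hi
      obtain ⟨j, rfl⟩ := ht j hj
      rw [hd', hd'] at hij
      rw [σ.injective (u'.injective (Fin.ext hij))]
    · intro i hi x hx
      obtain ⟨i, rfl⟩ := hs i hi
      obtain ⟨x, rfl⟩ := ht x hx
      rw [← hu, hd', hd', hc', hθ, hu']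
    · intro x hx
      obtain ⟨x, rfl⟩ := ht x hx
      rw [hd', hk, hk']
      exact hB x
  · rintro ⟨h1, h2, c, -, d, -, h3, h4, h5, h6⟩
    have h0 : 0 < a.2.1.1 := lt_of_le_of_lt (Nat.zero_le _) (e 1).2
    have h0' : 0 < a.2.2.1 := by
      obtain ⟨x⟩ := (inferInstance : Nonempty (Σ i, X i))
      exact lt_of_le_of_lt (Nat.zero_le _) (u x).2
    obtain ⟨θ, hθ⟩ := dig_of e e' h1 h0 c h3
    obtain ⟨σ, hσ⟩ := dig_of u u' h2 h0' d h4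
    refine ⟨θ, σ, fun q x => ?_, fun p => ?_⟩
    · apply u'.injective
      apply Fin.ext
      rw [hσ, hu', hu, hθ, hσ]
      exact h5 _ (e q).2 _ (u x).2
    · have h7 := h6 _ (u p).2
      rw [← hσ, hk, hk'] at h7
      exact h7

@[fun_prop] theorem ckx {α : Type*} [Primcodable α] {f : α → List Pres} {g : α → ℕ}
    (hf : Computable f) (hg : Computable g) : Computable fun x => kx (f x) (g x) :=
  (Primrec.list_getD ((0, []) : Pres)).to_comp.comp hf hg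

theorem v_cp : ComputablePred V := by
  unfold V
  refine cp_and (cp_comp valid_cp (f := fun w : Z => w.2.1) (by fun_prop))
    (cp_and (cp_comp va_cp (f := fun w : Z => w.2) (by fun_prop)) ?_)
  unfold VL
  refine cp_and (cp_eq (f := fun w : Z => w.1.length) (g := fun w : Z => w.2.2.1)
    (by fun_prop) (by fun_prop)) ?_
  refine cp_all_lt (p := fun (w : Z) i => ∀ x < w.2.2.1, kx w.1 (ml w.2.2 i x) = kx w.1 x) ?_
    (by fun_prop)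
  refine cp_all_lt (p := fun (w : Z × ℕ) x =>
    kx w.1.1 (ml w.1.2.2 w.2 x) = kx w.1.1 x) ?_ (by fun_prop)
  exact cp_eq (by fun_prop) (by fun_prop)

/-- pairs of data with a list -/
abbrev D2 : Type := (Z × Z) × List (Pres × Pres)

theorem isoB_cp : ComputablePred fun z : D2 => IsoB z.1.1 z.1.2 z.2 := by
  unfold IsoB
  refine cp_and (cp_eq (by fun_prop) (by fun_prop)) (cp_and (cp_eq (by fun_prop) (by fun_prop)) ?_)
  refine cp_ex (p := fun (z : D2) c => ∃ d, d < z.1.1.2.2.1 ^ z.1.1.2.2.1 ∧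
    (∀ i < z.1.1.2.1.1, ∀ j < z.1.1.2.1.1, dg z.1.1.2.1.1 c i = dg z.1.1.2.1.1 c j → i = j) ∧
    (∀ i < z.1.1.2.2.1, ∀ j < z.1.1.2.2.1, dg z.1.1.2.2.1 d i = dg z.1.1.2.2.1 d j → i = j) ∧
    (∀ i < z.1.1.2.1.1, ∀ x < z.1.1.2.2.1,
      dg z.1.1.2.2.1 d (ml z.1.1.2.2 i x) =
        ml z.1.2.2.2 (dg z.1.1.2.1.1 c i) (dg z.1.1.2.2.1 d x)) ∧
    ∀ x < z.1.1.2.2.1, ¬ (kx z.1.1.1 x, kx z.1.2.1 (dg z.1.1.2.2.1 d x)) ∈ z.2) ?_ (by fun_prop)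
  refine cp_ex (p := fun (y : D2 × ℕ) d =>
    (∀ i < y.1.1.1.2.1.1, ∀ j < y.1.1.1.2.1.1,
      dg y.1.1.1.2.1.1 y.2 i = dg y.1.1.1.2.1.1 y.2 j → i = j) ∧
    (∀ i < y.1.1.1.2.2.1, ∀ j < y.1.1.1.2.2.1,
      dg y.1.1.1.2.2.1 d i = dg y.1.1.1.2.2.1 d j → i = j) ∧
    (∀ i < y.1.1.1.2.1.1, ∀ x < y.1.1.1.2.2.1,
      dg y.1.1.1.2.2.1 d (ml y.1.1.1.2.2 i x) =
        ml y.1.1.2.2.2 (dg y.1.1.1.2.1.1 y.2 i) (dg y.1.1.1.2.2.1 d x)) ∧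
    ∀ x < y.1.1.1.2.2.1, ¬ (kx y.1.1.1.1 x, kx y.1.1.2.1 (dg y.1.1.1.2.2.1 d x)) ∈ y.1.2) ?_
    (by fun_prop)
  refine cp_and ?_ (cp_and ?_ (cp_and ?_ ?_))
  · refine cp_all_lt (p := fun (y : (D2 × ℕ) × ℕ) i => ∀ j < y.1.1.1.1.2.1.1,
      dg y.1.1.1.1.2.1.1 y.1.2 i = dg y.1.1.1.1.2.1.1 y.1.2 j → i = j) ?_ (by fun_prop)
    refine cp_all_lt (p := fun (y : ((D2 × ℕ) × ℕ) × ℕ) j =>
      dg y.1.1.1.1.1.2.1.1 y.1.1.2 y.2 = dg y.1.1.1.1.1.2.1.1 y.1.1.2 j → y.2 = j) ?_ (by fun_prop)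
    exact cp_imp (cp_eq (by fun_prop) (by fun_prop)) (cp_eq (by fun_prop) (by fun_prop))
  · refine cp_all_lt (p := fun (y : (D2 × ℕ) × ℕ) i => ∀ j < y.1.1.1.1.2.2.1,
      dg y.1.1.1.1.2.2.1 y.2 i = dg y.1.1.1.1.2.2.1 y.2 j → i = j) ?_ (by fun_prop)
    refine cp_all_lt (p := fun (y : ((D2 × ℕ) × ℕ) × ℕ) j =>
      dg y.1.1.1.1.1.2.2.1 y.1.2 y.2 = dg y.1.1.1.1.1.2.2.1 y.1.2 j → y.2 = j) ?_ (by fun_prop)
    exact cp_imp (cp_eq (by fun_prop) (by fun_prop)) (cp_eq (by fun_prop) (by fun_prop))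
  · refine cp_all_lt (p := fun (y : (D2 × ℕ) × ℕ) i => ∀ x < y.1.1.1.1.2.2.1,
      dg y.1.1.1.1.2.2.1 y.2 (ml y.1.1.1.1.2.2 i x) =
        ml y.1.1.1.2.2.2 (dg y.1.1.1.1.2.1.1 y.1.2 i) (dg y.1.1.1.1.2.2.1 y.2 x)) ?_ (by fun_prop)
    refine cp_all_lt (p := fun (y : ((D2 × ℕ) × ℕ) × ℕ) x =>
      dg y.1.1.1.1.1.2.2.1 y.1.2 (ml y.1.1.1.1.1.2.2 y.2 x) =
        ml y.1.1.1.1.2.2.2 (dg y.1.1.1.1.1.2.1.1 y.1.1.2 y.2) (dg y.1.1.1.1.1.2.2.1 y.1.2 x)) ?_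
      (by fun_prop)
    exact cp_eq (by fun_prop) (by fun_prop)
  · refine cp_all_lt (p := fun (y : (D2 × ℕ) × ℕ) x =>
      ¬ (kx y.1.1.1.1.1 x, kx y.1.1.1.2.1 (dg y.1.1.1.1.2.2.1 y.2 x)) ∈ y.1.1.2) ?_ (by fun_prop)
    exact cp_not (cp_mem (by fun_prop) (by fun_prop))

end Pool.Agent.U670.WC
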