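import Pool.Agent.U670.WC.Free

set_option autoImplicit false
set_option linter.unusedSectionVars false

/-!
# Combination with the direct and free products of helper181
-/

namespace Pool.Agent.U670.WC

open Monoid Monoid.Coprod Pool.Agent.Q223.IS Pool.Agent.Q32.DP Pool.Agent.Helper926
  Pool.Agent.Helper926.RE Pool.Agent.U181.IP Pool.Agent.U181.IP.FinT Pool.Agent.U181.IP.FinC

theorem Irr.iso {G H : Type} [Group G] [Group H] (h : Irr G) (e : G ≃* H) : Irr H := by
  obtain ⟨⟨g, hg⟩, h2⟩ := h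
  refine ⟨⟨e g, fun h => hg (e.injective (by rw [h, map_one]))⟩, ?_⟩
  intro A B hAB hfi
  have h3 := h2 (A.map e.symm.toMonoidHom) (B.map e.symm.toMonoidHom) (by
    rintro _ ⟨a, ha, rfl⟩ _ ⟨b, hb, rfl⟩
    show e.symm a * e.symm b = e.symm b * e.symm a
    rw [← map_mul, ← map_mul, hAB a ha b hb]) (by
    rw [← Subgroup.map_sup]
    refine ⟨?_⟩
    rw [Subgroup.index_map_of_injective _ e.symm.injective]
    have h1 : e.symm.toMonoidHom.range.index = 1 := by
      rw [Subgroup.index_eq_one, MonoidHom.range_eq_top]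
      exact e.symm.surjective
    rw [h1, mul_one]
    exact hfi.index_ne_zero)
  have h4 : ∀ D : Subgroup H, D.map e.symm.toMonoidHom = ⊥ → D = ⊥ := by
    intro D hD
    rw [Subgroup.eq_bot_iff_forall]
    intro x hx
    have h5 : e.symm x ∈ D.map e.symm.toMonoidHom := ⟨x, hx, rfl⟩
    rw [hD, Subgroup.mem_bot] at h5
    rw [← e.apply_symm_apply x, h5, map_one]
  exact h3.imp (h4 A) (h4 B)

/-- The presentations of the free products of two nontrivial groups in `BuiltF C` which are not both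
of order two. -/
def FPr (C : Pres → Prop) (p : Pres) : Prop :=
  ∃ a b : Pres, BuiltF C a ∧ BuiltF C b ∧ (∃ x : PG a, x ≠ 1) ∧ (∃ y : PG b, y ≠ 1) ∧
    ¬ (Nat.card (PG a) = 2 ∧ Nat.card (PG b) = 2) ∧ Nonempty (PG p ≃* Coprod (PG a) (PG b))

theorem two_of {G : Type} [Group G] {g : G} (hg : g ≠ 1) (h : Nat.card G ≠ 2) :
    ∃ x y : G, x ≠ 1 ∧ y ≠ 1 ∧ x ≠ y := by
  by_contra hcon
  push Not at hcon
  apply h
  have h1 : ∀ x : G, x = 1 ∨ x = g := by
    intro x
    by_cases hx : x = 1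
    · exact Or.inl hx
    · exact Or.inr (hcon x g hx hg)
  rw [Nat.card_eq_two_iff]
  refine ⟨1, g, Ne.symm hg, ?_⟩
  ext x
  simp only [Set.mem_insert_iff, Set.mem_singleton_iff, Set.mem_univ, iff_true]
  exact h1 x

theorem fpr_irr {C : Pres → Prop} {p : Pres} (h : FPr C p) : Irr (PG p) := by
  obtain ⟨a, b, -, -, ⟨x, hx⟩, ⟨y, hy⟩, h2, ⟨e⟩⟩ := h
  refine Irr.iso ?_ e.symm
  by_cases ha : Nat.card (PG a) = 2
  · obtain ⟨u, v, hu, hv, huv⟩ := two_of hy (fun hb => h2 ⟨ha, hb⟩)
    refine irr_coprod (x := ⟨(x, u), hx, hu⟩) (y := ⟨(x, v), hx, hv⟩) ?_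
    intro h
    exact huv (congrArg (fun z => z.1.2) h)
  · obtain ⟨u, v, hu, hv, huv⟩ := two_of hx ha
    refine irr_coprod (x := ⟨(u, y), hu, hy⟩) (y := ⟨(v, y), hv, hy⟩) ?_
    intro h
    exact huv (congrArg (fun z => z.1.1) h)

theorem fin_re : REPred fun p : Pres => Finite (PG p) := by
  refine REPred.of_eq (RE.ex (p := fun (p : Pres) (t : ℕ × ℕ) => Valid t ∧
    Nonempty (PG p ≃* PG (K t))) ?_) ?_
  · refine RE.and (RE.comp valid_cp.to_re Computable.snd) ?_
    exact RE.comp iso_re (f := fun x : Pres × (ℕ × ℕ) => (x.1, K x.2))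
      (Computable.fst.pair (K_pr.to_comp.comp Computable.snd))
  · intro p
    constructor
    · rintro ⟨t, h1, ⟨e⟩⟩
      obtain ⟨G, _, ht⟩ := tab_of h1
      obtain ⟨f⟩ := K_iso ht
      obtain ⟨k, -⟩ := ht
      exact Finite.of_equiv _ ((e.trans f).toEquiv.trans k).symm
    · intro h
      obtain ⟨t, ht⟩ := exists_tab (PG p)
      obtain ⟨e⟩ := K_iso ht
      exact ⟨t, valid_of ht, ⟨e.symm⟩⟩

theorem builtF_re {C : Pres → Prop} (hC : REPred C) : REPred (BuiltF C) := by
  let S : List Pres × Pres → Prop := fun z => (C z.2 ∨ Finite (PG z.2) ∨ Ab z.2) ∨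
    ∃ w : Pres × Pres, (w.1 ∈ z.1 ∧ w.2 ∈ z.1) ∧ (Nonempty (PG z.2 ≃* PG (PROD2.P2 w.1 w.2)) ∨
      Nonempty (PG z.2 ≃* PG (FPROD.Q2 w.1 w.2)))
  have hS : REPred S := by
    refine RE.or (RE.or (RE.comp hC Computable.snd) (RE.or (RE.comp fin_re Computable.snd)
      (RE.comp AbS.ab_re Computable.snd))) ?_
    refine RE.ex (p := fun (z : List Pres × Pres) (w : Pres × Pres) =>
      (w.1 ∈ z.1 ∧ w.2 ∈ z.1) ∧ (Nonempty (PG z.2 ≃* PG (PROD2.P2 w.1 w.2)) ∨
      Nonempty (PG z.2 ≃* PG (FPROD.Q2 w.1 w.2)))) ?_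
    refine RE.and (RE.and ?_ ?_) (RE.or ?_ ?_)
    · exact RE.mem_list (Computable.fst.comp Computable.snd) (Computable.fst.comp Computable.fst)
    · exact RE.mem_list (Computable.snd.comp Computable.snd) (Computable.fst.comp Computable.fst)
    · exact RE.comp iso_re (f := fun z : (List Pres × Pres) × (Pres × Pres) =>
        (z.1.2, PROD2.P2 z.2.1 z.2.2)) ((Computable.snd.comp Computable.fst).pair
          (PROD2.P2_pr.to_comp.comp (Computable.fst.comp Computable.snd)
            (Computable.snd.comp Computable.snd)))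
    · exact RE.comp iso_re (f := fun z : (List Pres × Pres) × (Pres × Pres) =>
        (z.1.2, FPROD.Q2 z.2.1 z.2.2)) ((Computable.snd.comp Computable.fst).pair
          (FPROD.Q2_pr.to_comp.comp (Computable.fst.comp Computable.snd)
            (Computable.snd.comp Computable.snd)))
  obtain ⟨Der, h1, h2, h3⟩ := GEN.t Pres S hS (by
    rintro l l' e h (h1 | ⟨w, ⟨h1, h2⟩, h3⟩)
    · exact Or.inl h1
    · exact Or.inr ⟨w, ⟨h _ h1, h _ h2⟩, h3⟩)
  refine h1.of_eq fun p => ⟨fun h => ?_, fun h => ?_⟩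
  · refine h3 (BuiltF C) ?_ p h
    rintro l e hl ((h4 | h4 | h4) | ⟨w, ⟨h4, h5⟩, ⟨⟨i⟩⟩ | ⟨⟨i⟩⟩⟩)
    · exact BuiltF.base h4
    · exact BuiltF.finite h4
    · exact BuiltF.abelian h4
    · obtain ⟨j⟩ := PROD2.iso w.1 w.2
      exact BuiltF.direct (hl _ h4) (hl _ h5) ⟨i.trans j⟩
    · obtain ⟨j⟩ := FPROD.iso w.1 w.2
      exact BuiltF.free (hl _ h4) (hl _ h5) ⟨i.trans j⟩
  · induction h with
    | base h => exact h2 [] _ (by simp) (Or.inl (Or.inl h))
    | finite h => exact h2 [] _ (by simp) (Or.inl (Or.inr (Or.inl h)))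
    | abelian h => exact h2 [] _ (by simp) (Or.inl (Or.inr (Or.inr h)))
    | @direct a b p _ _ h iha ihb =>
      obtain ⟨i⟩ := h
      obtain ⟨j⟩ := PROD2.iso a b
      refine h2 [a, b] _ ?_ (Or.inr ⟨(a, b), ⟨by simp, by simp⟩, Or.inl ⟨i.trans j.symm⟩⟩)
      intro x hx
      rcases List.mem_cons.1 hx with rfl | hx
      · exact iha
      · rw [List.mem_singleton.1 hx]
        exact ihb
    | @free a b p _ _ h iha ihb =>
      obtain ⟨i⟩ := h
      obtain ⟨j⟩ := FPROD.iso a b
      refine h2 [a, b] _ ?_ (Or.inr ⟨(a, b), ⟨by simp, by simp⟩, Or.inr ⟨i.trans j.symm⟩⟩)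
      intro x hx
      rcases List.mem_cons.1 hx with rfl | hx
      · exact iha
      · rw [List.mem_singleton.1 hx]
        exact ihb

/-- the free products form a recursively enumerable class with solvable isomorphism problem -/
theorem fpr (C : Pres → Prop) (hC : REPred C)
    (hB : ∀ k, C k → Infinite (PG k) ∧ FinCen (PG k) ∧ Indecomposable (PG k) ∧
      FreelyIndec (PG k)) (hS : Solvable C) : REPred (FPr C) ∧ Solvable (FPr C) := by
  obtain ⟨f, hf, hf'⟩ := Pool.Agent.U181.IP.main C hC hB hS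
  refine ⟨?_, f, hf, ?_⟩
  · obtain ⟨c2, ⟨e2⟩⟩ := exists_code (Multiplicative (ZMod 2))
    have hcard2 : Nat.card (PG c2) = 2 := by
      rw [Nat.card_congr e2.toEquiv, Nat.card_congr Multiplicative.toAdd, Nat.card_zmod]
    have hT : BuiltF C REDD.Tc := BuiltF.finite (by
      have : Subsingleton (PG REDD.Tc) := ⟨fun x y => by rw [REDD.triv x, REDD.triv y]⟩
      infer_instance)
    have h2 : BuiltF C c2 := BuiltF.finite (Nat.finite_of_card_ne_zero (by rw [hcard2]; decide))
    have hdec : ∀ a c, BuiltF C a → BuiltF C c → (false ∈ f (a, c) ↔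
        ¬ Nonempty (PG a ≃* PG c)) := by
      intro a c ha hc
      constructor
      · intro h h1
        exact absurd (Part.mem_unique ((hf' a c ha hc).1 h1) h) (by decide)
      · exact (hf' a c ha hc).2
    have htriv : ∀ a, BuiltF C a → (false ∈ f (a, REDD.Tc) ↔ ∃ x : PG a, x ≠ 1) := by
      intro a ha
      rw [hdec a _ ha hT]
      constructor
      · intro h
        by_contra hcon
        push Not at hcon
        apply h
        refine ⟨MonoidHom.toMulEquiv (1 : PG a →* PG REDD.Tc) 1 ?_ ?_⟩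
        · exact MonoidHom.ext fun x => (hcon x).symm
        · exact MonoidHom.ext fun x => (REDD.triv _).trans (REDD.triv _).symm
      · rintro ⟨x, hx⟩ ⟨e⟩
        apply hx
        apply e.injective
        rw [REDD.triv (e x), map_one]
    have htwo : ∀ a, BuiltF C a → (false ∈ f (a, c2) ↔ Nat.card (PG a) ≠ 2) := by
      intro a ha
      rw [hdec a _ ha h2]
      constructor
      · intro h hc
        have : Fact (Nat.Prime 2) := ⟨Nat.prime_two⟩
        exact h ⟨mulEquivOfPrimeCardEq (p := 2) hc hcard2⟩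
      · rintro h ⟨e⟩
        apply h
        rw [Nat.card_congr e.toEquiv, hcard2]
    have hre : REPred fun p : Pres => ∃ w : Pres × Pres, (BuiltF C w.1 ∧ BuiltF C w.2) ∧
        (false ∈ f (w.1, REDD.Tc) ∧ false ∈ f (w.2, REDD.Tc)) ∧
        (false ∈ f (w.1, c2) ∨ false ∈ f (w.2, c2)) ∧
        Nonempty (PG p ≃* PG (FPROD.Q2 w.1 w.2)) := by
      refine RE.ex (p := fun (p : Pres) (w : Pres × Pres) => (BuiltF C w.1 ∧ BuiltF C w.2) ∧
        (false ∈ f (w.1, REDD.Tc) ∧ false ∈ f (w.2, REDD.Tc)) ∧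
        (false ∈ f (w.1, c2) ∨ false ∈ f (w.2, c2)) ∧
        Nonempty (PG p ≃* PG (FPROD.Q2 w.1 w.2))) ?_
      have w1 : Computable fun y : Pres × (Pres × Pres) => y.2.1 :=
        Computable.fst.comp Computable.snd
      have w2 : Computable fun y : Pres × (Pres × Pres) => y.2.2 :=
        Computable.snd.comp Computable.snd
      refine RE.and (RE.and ?_ ?_) (RE.and (RE.and ?_ ?_) (RE.and (RE.or ?_ ?_) ?_))
      · exact RE.comp (builtF_re hC) w1
      · exact RE.comp (builtF_re hC) w2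
      · exact NONMATCH.re_mem hf false (g := fun y : Pres × (Pres × Pres) => (y.2.1, REDD.Tc))
          (w1.pair (Computable.const _))
      · exact NONMATCH.re_mem hf false (g := fun y : Pres × (Pres × Pres) => (y.2.2, REDD.Tc))
          (w2.pair (Computable.const _))
      · exact NONMATCH.re_mem hf false (g := fun y : Pres × (Pres × Pres) => (y.2.1, c2))
          (w1.pair (Computable.const _))
      · exact NONMATCH.re_mem hf false (g := fun y : Pres × (Pres × Pres) => (y.2.2, c2))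
          (w2.pair (Computable.const _))
      · exact RE.comp iso_re (f := fun z : Pres × (Pres × Pres) => (z.1, FPROD.Q2 z.2.1 z.2.2))
          (Computable.fst.pair (FPROD.Q2_pr.to_comp.comp w1 w2))
    refine hre.of_eq fun p => ⟨?_, ?_⟩
    · rintro ⟨w, ⟨h3, h4⟩, ⟨h5, h6⟩, h7, ⟨i⟩⟩
      obtain ⟨j⟩ := FPROD.iso w.1 w.2
      refine ⟨w.1, w.2, h3, h4, (htriv _ h3).1 h5, (htriv _ h4).1 h6, ?_, ⟨i.trans j⟩⟩
      rintro ⟨h8, h9⟩
      rcases h7 with h7 | h7
      · exact (htwo _ h3).1 h7 h8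
      · exact (htwo _ h4).1 h7 h9
    · rintro ⟨a, b, h3, h4, h5, h6, h7, ⟨i⟩⟩
      obtain ⟨j⟩ := FPROD.iso a b
      refine ⟨(a, b), ⟨h3, h4⟩, ⟨(htriv _ h3).2 h5, (htriv _ h4).2 h6⟩, ?_, ⟨i.trans j.symm⟩⟩
      by_cases h8 : Nat.card (PG a) = 2
      · exact Or.inr ((htwo _ h4).2 fun h9 => h7 ⟨h8, h9⟩)
      · exact Or.inl ((htwo _ h3).2 h8)
  · rintro p q ⟨a, b, ha, hb, -, -, -, h⟩ ⟨a', b', ha', hb', -, -, -, h'⟩
    exact hf' p q (BuiltF.free ha hb h) (BuiltF.free ha' hb' h')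

theorem Irr.infinite {G : Type} [Group G] (h : Irr G) : Infinite G := by
  by_contra hc
  rw [not_infinite_iff_finite] at hc
  obtain ⟨g, hg⟩ := h.1
  exact hg (h.fc g inferInstance)

theorem Irr.finCen {G : Type} [Group G] (h : Irr G) : FinCen G := by
  refine Set.Finite.subset (Set.finite_singleton 1) ?_
  intro z hz
  refine h.fc z (Subgroup.finiteIndex_of_le (H := ⊤) ?_)
  intro g _
  rw [Subgroup.mem_centralizer_iff]
  intro y hy
  have hy' : y = z := hy
  rw [hy']
  exact hz g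

theorem Irr.indec {G : Type} [Group G] (h : Irr G) : Indecomposable G := by
  refine ⟨h.1, ?_⟩
  rintro A B _ _ ⟨e⟩
  let P : Subgroup G := (e.symm.toMonoidHom.comp (MonoidHom.inl A B)).range
  let R : Subgroup G := (e.symm.toMonoidHom.comp (MonoidHom.inr A B)).range
  have hPR : ∀ p ∈ P, ∀ r ∈ R, p * r = r * p := by
    rintro _ ⟨a, rfl⟩ _ ⟨b, rfl⟩
    show e.symm (a, 1) * e.symm (1, b) = e.symm (1, b) * e.symm (a, 1)
    rw [← map_mul, ← map_mul]
    congr 1
    exact Prod.ext (by simp) (by simp)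
  have htop : P ⊔ R = ⊤ := by
    rw [eq_top_iff]
    intro g _
    have h1 : g = e.symm ((e g).1, 1) * e.symm (1, (e g).2) := by
      rw [← map_mul, Prod.mk_mul_mk, mul_one, one_mul]
      exact (e.symm_apply_apply g).symm
    rw [h1]
    exact Subgroup.mul_mem_sup ⟨_, rfl⟩ ⟨_, rfl⟩
  have h3 := h.2 P R hPR (by rw [htop]; infer_instance)
  rcases h3 with h3 | h3
  · left
    intro a
    have h4 : e.symm (a, 1) ∈ P := ⟨a, rfl⟩
    rw [h3, Subgroup.mem_bot] at h4
    have h5 := congrArg e h4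
    rw [e.apply_symm_apply, map_one] at h5
    exact congrArg Prod.fst h5
  · right
    intro b
    have h4 : e.symm (1, b) ∈ R := ⟨b, rfl⟩
    rw [h3, Subgroup.mem_bot] at h4
    have h5 := congrArg e h4
    rw [e.apply_symm_apply, map_one] at h5
    exact congrArg Prod.snd h5

/-- The class `C` together with the free products `FPr C`. -/
def Irs (C : Pres → Prop) (p : Pres) : Prop := C p ∨ FPr C p

/-- the combination -/
theorem comb (C : Pres → Prop) (hC : REPred C)
    (hB : ∀ k, C k → Irr (PG k) ∧ FreelyIndec (PG k)) (hS : Solvable C) :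
    (REPred (Irs C) ∧ (∀ k, Irs C k → Irr (PG k)) ∧ Solvable (Irs C)) ∧
      REPred (PermC (Irs C)) ∧ Solvable (PermC (Irs C)) := by
  have hB' : ∀ k, C k → Infinite (PG k) ∧ FinCen (PG k) ∧ Indecomposable (PG k) ∧
      FreelyIndec (PG k) := fun k hk =>
    ⟨(hB k hk).1.infinite, (hB k hk).1.finCen, (hB k hk).1.indec, (hB k hk).2⟩
  have h1 : REPred (Irs C) := RE.or hC (fpr C hC hB' hS).1
  have h2 : ∀ k, Irs C k → Irr (PG k) := by
    rintro k (hk | hk)
    · exact (hB k hk).1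
    · exact fpr_irr hk
  have h3 : Solvable (Irs C) := by
    obtain ⟨f, hf, hf'⟩ := Pool.Agent.U181.IP.main C hC hB' hS
    have hin : ∀ k, Irs C k → BuiltF C k := by
      rintro k (hk | ⟨a, b, ha, hb, -, -, -, h⟩)
      · exact BuiltF.base hk
      · exact BuiltF.free ha hb h
    exact ⟨f, hf, fun p q hp hq => hf' p q (hin p hp) (hin q hq)⟩
  exact ⟨⟨h1, h2, h3⟩, permC_re h1, main (Irs C) h1 h2 h3⟩

theorem solv_false : Solvable (fun _ => False) := by
  refine ⟨fun _ => Part.some true, ?_, fun a b ha => ha.elim⟩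
  exact (Computable.const true).partrec

/-- the unconditional case -/
theorem unconditional : REPred (PermC (FPr fun _ => False)) ∧
    Solvable (PermC (FPr fun _ => False)) := by
  obtain ⟨h1, h2⟩ := (comb _ (RE.const False) (fun _ hk => hk.elim) solv_false).2
  have h : Irs (fun _ => False) = FPr fun _ => False := by
    funext p
    exact propext ⟨fun h => h.resolve_left id, Or.inr⟩
  rw [h] at h1 h2
  exact ⟨h1, h2⟩

end Pool.Agent.U670.WC
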