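import Pool.Agent.U670.WC.Uniq

set_option autoImplicit false
set_option linter.unusedSectionVars false

/-!
# Finite groups permuting the factors of a direct product
-/

namespace Pool.Agent.U670.WC

open SemidirectProduct

/-- `Q` acts on the direct product of the powers `G i ^ X i` by permuting the coordinates -/
def cAct {I : Type} (X G : I → Type) (Q : Type) [∀ i, Group (G i)] [Group Q]
    [∀ i, MulAction Q (X i)] : Q →* MulAut (∀ i, X i → G i) where
  toFun q :=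
    { toFun := fun f i x => f i (q⁻¹ • x)
      invFun := fun f i x => f i (q • x)
      left_inv := fun f => by
        funext i x
        show f i (q⁻¹ • q • x) = f i x
        rw [inv_smul_smul]
      right_inv := fun f => by
        funext i x
        show f i (q • q⁻¹ • x) = f i x
        rw [smul_inv_smul]
      map_mul' := fun f g => rfl }
  map_one' := by
    ext f i x
    show f i ((1 : Q)⁻¹ • x) = f i x
    rw [inv_one, one_smul]
  map_mul' q r := by
    ext f i x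
    show f i ((q * r)⁻¹ • x) = f i (r⁻¹ • q⁻¹ • x)
    rw [mul_inv_rev, mul_smul]

/-- the semidirect product `(∏ i, G i ^ X i) ⋊ Q` -/
abbrev CWr {I : Type} (X G : I → Type) (Q : Type) [∀ i, Group (G i)] [Group Q]
    [∀ i, MulAction Q (X i)] : Type := (∀ i, X i → G i) ⋊[cAct X G Q] Q

section

variable {I : Type} {X G : I → Type} [∀ i, Group (G i)] [DecidableEq I] [∀ i, DecidableEq (X i)]

/-- an element of one factor -/
def S (i : I) (x : X i) (g : G i) : ∀ i, X i → G i := Pi.mulSingle i (Pi.mulSingle x g)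

theorem S_same (i : I) (x : X i) (g : G i) : S i x g i x = g := by
  unfold S
  rw [Pi.mulSingle_eq_same, Pi.mulSingle_eq_same]

theorem S_ne' (i : I) {x y : X i} (h : y ≠ x) (g : G i) : S i x g i y = 1 := by
  unfold S
  rw [Pi.mulSingle_eq_same, Pi.mulSingle_eq_of_ne (M := fun _ => G i) h]

theorem S_ne {i j : I} {x : X i} {y : X j} (h : (⟨j, y⟩ : Σ i, X i) ≠ ⟨i, x⟩) (g : G i) :
    S i x g j y = 1 := by
  by_cases hj : j = i
  · subst hj
    exact S_ne' j (fun h' => h (by rw [h'])) g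
  · unfold S
    rw [Pi.mulSingle_eq_of_ne hj]
    rfl

theorem S_one (i : I) (x : X i) : S i x (1 : G i) = 1 := by
  unfold S
  rw [Pi.mulSingle_one, Pi.mulSingle_one]

theorem S_mul (i : I) (x : X i) (a b : G i) : S i x (a * b) = S i x a * S i x b := by
  unfold S
  rw [Pi.mulSingle_mul, Pi.mulSingle_mul]

theorem S_inj (i : I) (x : X i) {a b : G i} (h : S i x a = S i x b) : a = b := by
  rw [← S_same i x a, h, S_same]

/-- the uncurried product -/
def cur : (∀ p : Σ i, X i, G p.1) →* (∀ i, X i → G i) where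
  toFun f i x := f ⟨i, x⟩
  map_one' := rfl
  map_mul' _ _ := rfl

/-- the inverse of `cur` -/
def unc : (∀ i, X i → G i) →* (∀ p : Σ i, X i, G p.1) where
  toFun f p := f p.1 p.2
  map_one' := rfl
  map_mul' _ _ := rfl

theorem cur_unc (f : ∀ i, X i → G i) : cur (unc f) = f := rfl

theorem unc_cur (f : ∀ p : Σ i, X i, G p.1) : unc (cur f) = f := rfl

theorem unc_S (p : Σ i, X i) (g : G p.1) :
    unc (S p.1 p.2 g) = Pi.mulSingle (M := fun p : Σ i, X i => G p.1) p g := by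
  funext r
  show S p.1 p.2 g r.1 r.2 = _
  by_cases h : r = p
  · subst h
    rw [S_same, Pi.mulSingle_eq_same]
  · rw [S_ne (fun h' => h h'), Pi.mulSingle_eq_of_ne h]

theorem cur_S (p : Σ i, X i) (g : G p.1) :
    cur (Pi.mulSingle (M := fun p : Σ i, X i => G p.1) p g) = S p.1 p.2 g := by
  rw [← unc_S, cur_unc]

theorem S_comm {p r : Σ i, X i} (h : p ≠ r) (a : G p.1) (b : G r.1) :
    Commute (S p.1 p.2 a) (S r.1 r.2 b) := by
  rw [← cur_S, ← cur_S]
  exact (Pi.mulSingle_commute h a b).map cur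

theorem cext {M : Type} [Group M] [Finite (Σ i, X i)] {F F' : (∀ i, X i → G i) →* M}
    (h : ∀ (p : Σ i, X i) (g : G p.1), F (S p.1 p.2 g) = F' (S p.1 p.2 g)) : F = F' := by
  have h1 : F.comp cur = F'.comp cur := by
    apply MonoidHom.pi_ext
    intro p g
    show F (cur _) = F' (cur _)
    rw [cur_S, h]
  ext f
  exact DFunLike.congr_fun h1 (unc f)

variable {Q : Type} [Group Q] [∀ i, MulAction Q (X i)]

theorem act_S (q : Q) (i : I) (x : X i) (g : G i) : cAct X G Q q (S i x g) = S i (q • x) g := by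
  funext j y
  show S i x g j (q⁻¹ • y) = S i (q • x) g j y
  by_cases hj : j = i
  · subst hj
    by_cases hy : y = q • x
    · subst hy
      rw [inv_smul_smul, S_same, S_same]
    · rw [S_ne' j hy, S_ne' j]
      intro h
      apply hy
      rw [← h, smul_inv_smul]
  · unfold S
    rw [Pi.mulSingle_eq_of_ne hj, Pi.mulSingle_eq_of_ne hj]
    rfl

theorem conj_S (q : Q) (i : I) (x : X i) (g : G i) : (inr q : CWr X G Q) * inl (S i x g) =
    inl (S i (q • x) g) * inr q := by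
  rw [← act_S, inl_aut, map_inv, inv_mul_cancel_right]

theorem fam_inl (hG : ∀ i, Irr (G i)) [Finite Q] [FaithfulSMul Q (Σ i, X i)] :
    Fam ((inl : (∀ i, X i → G i) →* CWr X G Q).comp cur) := by
  refine ⟨?_, ?_, ?_⟩
  · intro a b hab
    have h1 : cur a = cur b := inl_injective hab
    rw [← unc_cur a, h1, unc_cur]
  · have h1 : ((inl : (∀ i, X i → G i) →* CWr X G Q).comp cur).range =
        (inl : (∀ i, X i → G i) →* CWr X G Q).range := by
      ext w
      constructor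
      · rintro ⟨f, rfl⟩
        exact ⟨cur f, rfl⟩
      · rintro ⟨f, rfl⟩
        exact ⟨unc f, rfl⟩
    rw [h1, range_inl_eq_ker_rightHom]
    exact Subgroup.finiteIndex_ker _
  · rintro ⟨i, x⟩ ⟨f, q⟩ hw
    have key : ∀ j (y : X j), (⟨j, y⟩ : Σ i, X i) ≠ ⟨i, x⟩ → ∃ E : Subgroup (G j), E.FiniteIndex ∧
        ∀ g ∈ E, f * S j (q • y) g = S j y g * f := by
      intro j y hy
      obtain ⟨E, hE, h⟩ := hw ⟨j, y⟩ hy
      refine ⟨E, hE, fun g hg => ?_⟩
      have h1 : (⟨f, q⟩ : CWr X G Q) * inl (cur (Pi.mulSingle (M := fun p : Σ i, X i => G p.1)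
        ⟨j, y⟩ g)) = inl (cur (Pi.mulSingle (M := fun p : Σ i, X i => G p.1) ⟨j, y⟩ g)) *
          ⟨f, q⟩ := h g hg
      rw [cur_S, mk_eq_inl_mul_inr, mul_assoc, conj_S, ← mul_assoc, ← mul_assoc] at h1
      have h2 := mul_right_cancel h1
      rw [← map_mul, ← map_mul] at h2
      exact inl_injective h2
    have h1 : ∀ j (y : X j), (⟨j, y⟩ : Σ i, X i) ≠ ⟨i, x⟩ → q • y = y := by
      intro j y hy
      by_contra hne
      obtain ⟨E, hE, h⟩ := key j y hy
      obtain ⟨g, hg, hg1⟩ := (hG j).ne hE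
      apply hg1
      have h2 := congrFun (congrFun (h g hg) j) y
      rw [Pi.mul_apply, Pi.mul_apply, Pi.mul_apply, Pi.mul_apply, S_same, S_ne' j (Ne.symm hne),
        mul_one] at h2
      exact right_eq_mul.1 h2
    have h2 : q • x = x := by
      by_contra hne
      have h3 := h1 i (q • x) (fun h => hne (by simpa using h))
      exact hne (MulAction.injective q h3)
    have h3 : q = 1 := by
      apply FaithfulSMul.eq_of_smul_eq_smul (α := Σ i, X i)
      rintro ⟨j, y⟩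
      rw [one_smul, Sigma.smul_mk]
      by_cases hy : (⟨j, y⟩ : Σ i, X i) = ⟨i, x⟩
      · cases hy
        rw [h2]
      · rw [h1 j y hy]
    have h4 : ∀ j (y : X j), (⟨j, y⟩ : Σ i, X i) ≠ ⟨i, x⟩ → f j y = 1 := by
      intro j y hy
      obtain ⟨E, hE, h⟩ := key j y hy
      apply (hG j).fc
      refine Subgroup.finiteIndex_of_le (H := E) ?_
      intro g hg
      rw [Subgroup.mem_centralizer_iff]
      intro z hz
      have hz' : z = f j y := hz
      subst hz'
      have h5 := congrFun (congrFun (h g hg) j) y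
      rw [h3, one_smul, Pi.mul_apply, Pi.mul_apply, Pi.mul_apply, Pi.mul_apply, S_same] at h5
      exact h5
    refine ⟨f i x, ?_⟩
    subst h3
    show _ = (inl (cur _) : CWr X G Q)
    rw [cur_S]
    refine SemidirectProduct.ext ?_ rfl
    funext j y
    show f j y = S i x (f i x) j y
    by_cases hy : (⟨j, y⟩ : Σ i, X i) = ⟨i, x⟩
    · cases hy
      rw [S_same]
    · rw [h4 j y hy, S_ne hy]

end

theorem Fam.equiv {P : Type} {A : P → Type} [∀ p, Group (A p)] [DecidableEq P] {W V : Type}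
    [Group W] [Group V] {ι : (∀ p, A p) →* W} (h : Fam ι) (e : W ≃* V) :
    Fam (e.toMonoidHom.comp ι) := by
  refine ⟨e.injective.comp h.inj, ?_, ?_⟩
  · rw [MonoidHom.range_comp]
    refine ⟨?_⟩
    rw [Subgroup.index_map_of_injective _ e.injective]
    have h1 : e.toMonoidHom.range.index = 1 := by
      rw [Subgroup.index_eq_one, MonoidHom.range_eq_top]
      exact e.surjective
    rw [h1, mul_one]
    exact h.fi.index_ne_zero
  · intro x w hw
    obtain ⟨g, hg⟩ := h.self x (e.symm w) (by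
      intro y hy
      obtain ⟨E, hE, h1⟩ := hw y hy
      refine ⟨E, hE, fun g hg => ?_⟩
      apply e.injective
      rw [map_mul, map_mul, e.apply_symm_apply]
      exact h1 g hg)
    refine ⟨g, ?_⟩
    show w = e (ι _)
    rw [← hg, e.apply_symm_apply]

section

variable {I J : Type} {X G : I → Type} {Y H : J → Type} [∀ i, Group (G i)] [∀ j, Group (H j)]
  [DecidableEq I] [∀ i, DecidableEq (X i)] [DecidableEq J] [∀ j, DecidableEq (Y j)]
  {Q R : Type} [Group Q] [∀ i, MulAction Q (X i)] [Group R] [∀ j, MulAction R (Y j)]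

/-- half of the structure of isomorphisms -/
theorem half [Finite (Σ i, X i)] [Finite (Σ j, Y j)] [Finite Q] [Finite R]
    [FaithfulSMul Q (Σ i, X i)] [FaithfulSMul R (Σ j, Y j)]
    (hG : ∀ i, Irr (G i)) (hH : ∀ j, Irr (H j)) (e : CWr X G Q ≃* CWr Y H R) :
    ∃ (θ : Q → R) (σ : (Σ i, X i) ≃ (Σ j, Y j)), Function.Injective θ ∧
      (∀ q p, σ (q • p) = θ q • σ p) ∧
      (∀ p k, ∃ h, e (inl (S p.1 p.2 k)) = inl (S (σ p).1 (σ p).2 h)) ∧
      ∀ p h, ∃ k, (inl (S (σ p).1 (σ p).2 h) : CWr Y H R) = e (inl (S p.1 p.2 k)) := by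
  have : Fintype (Σ i, X i) := Fintype.ofFinite _
  have : Fintype (Σ j, Y j) := Fintype.ofFinite _
  obtain ⟨σ, hσ⟩ := uniq ((fam_inl (Q := Q) (X := X) hG).equiv e) (fam_inl (Q := R) (X := Y) hH)
    (fun p => hG p.1) (fun p => hH p.1)
  have hσ1 : ∀ p k, ∃ h, e (inl (S p.1 p.2 k)) = inl (S (σ p).1 (σ p).2 h) := by
    intro p k
    obtain ⟨h, hh⟩ := (hσ p).1 k
    refine ⟨h, ?_⟩
    have h1 : e (inl (cur (Pi.mulSingle (M := fun p : Σ i, X i => G p.1) p k))) =
      (inl (cur (Pi.mulSingle (M := fun p : Σ i, Y i => H p.1) (σ p) h)) : CWr Y H R) := hh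
    rw [cur_S, cur_S] at h1
    exact h1
  have hσ2 : ∀ p h, ∃ k, (inl (S (σ p).1 (σ p).2 h) : CWr Y H R) = e (inl (S p.1 p.2 k)) := by
    intro p h
    obtain ⟨k, hk⟩ := (hσ p).2 h
    refine ⟨k, ?_⟩
    have h1 : (inl (cur (Pi.mulSingle (M := fun p : Σ i, Y i => H p.1) (σ p) h)) : CWr Y H R) =
      e (inl (cur (Pi.mulSingle (M := fun p : Σ i, X i => G p.1) p k))) := hk
    rw [cur_S, cur_S] at h1
    exact h1
  have hθ : ∀ q p, σ (q • p) = (e (inr q)).right • σ p := by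
    rintro q ⟨i, x⟩
    obtain ⟨k, hk⟩ := (hG i).1
    obtain ⟨h, hh⟩ := hσ1 ⟨i, x⟩ k
    obtain ⟨h2, hh2⟩ := hσ1 ⟨i, q • x⟩ k
    have e1 : e (inr q) * inl (S (σ ⟨i, x⟩).1 (σ ⟨i, x⟩).2 h) =
        inl (S (σ ⟨i, q • x⟩).1 (σ ⟨i, q • x⟩).2 h2) * e (inr q) := by
      rw [← hh, ← hh2, ← map_mul, ← map_mul, conj_S]
    have hne : h ≠ 1 := by
      rintro rfl
      rw [S_one, map_one, ← map_one e] at hh
      have h3 := inl_injective ((e.injective hh).trans (map_one inl).symm)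
      exact hk (S_inj i x (h3.trans (S_one i x).symm))
    by_contra hcon
    apply hne
    have e2 : (e (inr q) : CWr Y H R) = inl (e (inr q)).left * inr (e (inr q)).right :=
      (inl_left_mul_inr_right _).symm
    rw [e2, mul_assoc, conj_S, ← mul_assoc, ← mul_assoc] at e1
    have e3 := mul_right_cancel e1
    rw [← map_mul, ← map_mul] at e3
    have e4 := congrFun (congrFun (inl_injective e3) (σ ⟨i, x⟩).1)
      ((e (inr q)).right • (σ ⟨i, x⟩).2)
    have h6 : S (σ ⟨i, q • x⟩).1 (σ ⟨i, q • x⟩).2 h2 (σ ⟨i, x⟩).1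
        ((e (inr q)).right • (σ ⟨i, x⟩).2) = 1 := S_ne (fun h => hcon h.symm) h2
    rw [Pi.mul_apply, Pi.mul_apply, Pi.mul_apply, Pi.mul_apply, S_same, h6, one_mul] at e4
    exact mul_eq_left.1 e4
  refine ⟨fun q => (e (inr q)).right, σ, ?_, hθ, hσ1, hσ2⟩
  intro q q' hqq
  apply FaithfulSMul.eq_of_smul_eq_smul (α := Σ i, X i)
  intro p
  apply σ.injective
  rw [hθ, hθ]
  have h5 : (e (inr q)).right = (e (inr q')).right := hqq
  rw [h5]

theorem key [Finite (Σ i, X i)] [Finite (Σ j, Y j)] [Finite Q] [Finite R]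
    [FaithfulSMul Q (Σ i, X i)] [FaithfulSMul R (Σ j, Y j)]
    (hG : ∀ i, Irr (G i)) (hH : ∀ j, Irr (H j)) (e : CWr X G Q ≃* CWr Y H R) :
    ∃ (θ : Q ≃ R) (σ : (Σ i, X i) ≃ (Σ j, Y j)), (∀ q p, σ (q • p) = θ q • σ p) ∧
      ∀ p, Nonempty (G p.1 ≃* H (σ p).1) := by
  obtain ⟨θ, σ, hi, hθ, h1, h2⟩ := half hG hH e
  obtain ⟨θ', -, hi', -⟩ := half hH hG e.symm
  have hb : Function.Bijective θ :=
    hi.bijective_of_nat_card_le (Nat.card_le_card_of_injective θ' hi')
  refine ⟨Equiv.ofBijective θ hb, σ, hθ, fun p => ?_⟩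
  choose f hf using h1 p
  let F : G p.1 →* H (σ p).1 := MonoidHom.mk' f (by
    intro a b
    have h3 : (inl (S (σ p).1 (σ p).2 (f (a * b))) : CWr Y H R) =
        inl (S (σ p).1 (σ p).2 (f a * f b)) := by
      rw [← hf, S_mul, S_mul, map_mul, map_mul, map_mul, hf, hf]
    exact S_inj _ _ (inl_injective h3))
  refine ⟨MulEquiv.ofBijective F ⟨?_, ?_⟩⟩
  · intro a b hab
    have hab' : f a = f b := hab
    have h3 : e (inl (S p.1 p.2 a)) = e (inl (S p.1 p.2 b)) := by
      rw [hf, hf, hab']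
    exact S_inj _ _ (inl_injective (e.injective h3))
  · intro h
    obtain ⟨k, hk⟩ := h2 p h
    refine ⟨k, ?_⟩
    rw [hf] at hk
    exact (S_inj _ _ (inl_injective hk)).symm

end

section

variable {I J : Type} {X G : I → Type} {Y H : J → Type} [∀ i, Group (G i)] [∀ j, Group (H j)]
  {Q R : Type} [Group Q] [∀ i, MulAction Q (X i)] [Group R] [∀ j, MulAction R (Y j)]

theorem conv [FaithfulSMul R (Σ j, Y j)] (θ : Q ≃ R) (σ : (Σ i, X i) ≃ (Σ j, Y j))
    (hs : ∀ q p, σ (q • p) = θ q • σ p) (hp : ∀ p, Nonempty (G p.1 ≃* H (σ p).1)) :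
    Nonempty (CWr X G Q ≃* CWr Y H R) := by
  classical
  let θ' : Q ≃* R := MulEquiv.mk' θ (by
    intro a b
    apply FaithfulSMul.eq_of_smul_eq_smul (α := Σ j, Y j)
    intro y
    obtain ⟨x, rfl⟩ := σ.surjective y
    rw [← hs, mul_smul, mul_smul, hs, hs])
  let ψ : ∀ i j, Nonempty (G i ≃* H j) → (G i ≃* H j) := fun i j h => Classical.choice h
  have hr : ∀ r, Nonempty (G (σ.symm r).1 ≃* H r.1) := by
    intro r
    obtain ⟨p, rfl⟩ := σ.surjective r
    rw [σ.symm_apply_apply]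
    exact hp p
  let Ψ : (∀ i, X i → G i) ≃* (∀ j, Y j → H j) :=
    { toFun := fun f j y => ψ _ _ (hr ⟨j, y⟩) (f (σ.symm ⟨j, y⟩).1 (σ.symm ⟨j, y⟩).2)
      invFun := fun g i x => (ψ _ _ (hp ⟨i, x⟩)).symm (g (σ ⟨i, x⟩).1 (σ ⟨i, x⟩).2)
      left_inv := fun f => by
        funext i x
        have h1 : ∀ (p : Σ i, X i) (h : Nonempty (G p.1 ≃* H (σ ⟨i, x⟩).1)), p = ⟨i, x⟩ →
            (ψ _ _ (hp ⟨i, x⟩)).symm (ψ _ _ h (f p.1 p.2)) = f i x := by
          rintro _ h rfl
          exact (ψ _ _ h).symm_apply_apply _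
        exact h1 _ (hr _) (σ.symm_apply_apply _)
      right_inv := fun g => by
        funext j y
        have h1 : ∀ (p : Σ j, Y j) (h : Nonempty (G (σ.symm ⟨j, y⟩).1 ≃* H p.1)), p = ⟨j, y⟩ →
            ψ _ _ (hr ⟨j, y⟩) ((ψ _ _ h).symm (g p.1 p.2)) = g j y := by
          rintro _ h rfl
          exact (ψ _ _ h).apply_symm_apply _
        exact h1 _ (hp _) (σ.apply_symm_apply _)
      map_mul' := fun f g => by
        funext j y
        exact map_mul _ _ _ }
  refine ⟨SemidirectProduct.congr Ψ θ' ?_⟩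
  intro q
  ext f j y
  show ψ _ _ (hr ⟨j, y⟩) (f (σ.symm ⟨j, y⟩).1 (q⁻¹ • (σ.symm ⟨j, y⟩).2)) =
    ψ _ _ (hr ⟨j, (θ' q)⁻¹ • y⟩) (f (σ.symm ⟨j, (θ' q)⁻¹ • y⟩).1 (σ.symm ⟨j, (θ' q)⁻¹ • y⟩).2)
  have h2 : σ.symm ⟨j, (θ' q)⁻¹ • y⟩ = q⁻¹ • σ.symm ⟨j, y⟩ := by
    rw [Equiv.symm_apply_eq, hs, σ.apply_symm_apply]
    have h1 : θ q⁻¹ = (θ' q)⁻¹ := map_inv θ' q
    rw [h1]
    rfl
  have h3 : ∀ (p : Σ i, X i) (h : Nonempty (G p.1 ≃* H j)), p = q⁻¹ • σ.symm ⟨j, y⟩ →
      ψ _ _ (hr ⟨j, y⟩) (f (σ.symm ⟨j, y⟩).1 (q⁻¹ • (σ.symm ⟨j, y⟩).2)) =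
        ψ _ _ h (f p.1 p.2) := by
    rintro _ h rfl
    rfl
  exact h3 _ (hr _) h2

end

end Pool.Agent.U670.WC
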